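import Pool.Agent.H60.GrunF.Step2

set_option autoImplicit false

/-! The tile of an arc of small height is close to the regular hexagon. -/

namespace Pool.Agent.H60.GrunF

open Complex Pool.Agent.H60.Grun

/-- The closed regular hexagon of side `ρ` centred at the origin. -/
def HexR (ρ : ℝ) : Set ℂ := {z | |X z| ≤ ρ ∧ |Y z| ≤ ρ ∧ |Y z - X z| ≤ ρ}

lemma om_mem_HexR {ρ : ℝ} {z : ℂ} : om * z ∈ HexR ρ ↔ z ∈ HexR ρ := by
  have e1 : Y (om * z) - X (om * z) = X z := by rw [X_om_mul, Y_om_mul]; ring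
  show |X (om * z)| ≤ ρ ∧ |Y (om * z)| ≤ ρ ∧ |Y (om * z) - X (om * z)| ≤ ρ ↔
    |X z| ≤ ρ ∧ |Y z| ≤ ρ ∧ |Y z - X z| ≤ ρ
  rw [e1, X_om_mul, Y_om_mul, abs_neg, abs_sub_comm]
  tauto

lemma w_mem_HexR {ρ : ℝ} (j : Fin 3) {z : ℂ} : w j * z ∈ HexR ρ ↔ z ∈ HexR ρ := by
  fin_cases j
  · show w 0 * z ∈ HexR ρ ↔ z ∈ HexR ρ
    rw [w_0, one_mul]
  · show w 1 * z ∈ HexR ρ ↔ z ∈ HexR ρ
    rw [w_1, om_mem_HexR]
  · show w 2 * z ∈ HexR ρ ↔ z ∈ HexR ρ
    rw [w_2, mul_assoc, om_mem_HexR, om_mem_HexR]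

lemma closure_Rh_coord {z : ℂ} (h : z ∈ closure Rh) : 0 ≤ X z ∧ X z ≤ 1 ∧ 0 ≤ Y z ∧ Y z ≤ 1 := by
  have hcl : IsClosed {z : ℂ | 0 ≤ X z ∧ X z ≤ 1 ∧ 0 ≤ Y z ∧ Y z ≤ 1} :=
    (isClosed_le continuous_const continuous_X).inter
      ((isClosed_le continuous_X continuous_const).inter
        ((isClosed_le continuous_const continuous_Y).inter
          (isClosed_le continuous_Y continuous_const)))
  have hsub : Rh ⊆ {z : ℂ | 0 ≤ X z ∧ X z ≤ 1 ∧ 0 ≤ Y z ∧ Y z ≤ 1} := by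
    intro w hw
    obtain ⟨h1, h2, h3, h4⟩ := mem_Rh_iff.mp hw
    exact ⟨h1.le, h2.le, h3.le, h4.le⟩
  exact closure_minimal hsub hcl h

lemma YX_eq (z : ℂ) : Y z - X z = 2 * z.im / s := by unfold X Y; ring

lemma YX_le {z : ℂ} {δ : ℝ} (h : |z.im| ≤ δ) : |Y z - X z| ≤ 2 * δ := by
  have hs := s_gt
  have hs0 := s_pos
  rw [YX_eq, abs_div, abs_mul, abs_of_pos hs0, div_le_iff₀ hs0, abs_two]
  have := abs_nonneg z.im
  nlinarith

/-- The maximum of a nonconstant linear function is attained on the boundary. -/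
lemma max_frontier {T : Set ℂ} (hT : IsCompact T) {f : ℂ → ℝ} (hf : Continuous f) {d : ℂ}
    (hd : ∀ (z : ℂ) (t : ℝ), f (z + (t : ℂ) * d) = f z + t) {M : ℝ}
    (hM : ∀ z ∈ frontier T, f z ≤ M) {z : ℂ} (hz : z ∈ T) : f z ≤ M := by
  obtain ⟨z0, hz0, hmax⟩ := hT.exists_isMaxOn ⟨z, hz⟩ hf.continuousOn
  have h1 : f z ≤ f z0 := hmax hz
  refine h1.trans (hM z0 ?_)
  rw [hT.isClosed.frontier_eq]
  refine ⟨hz0, fun hi => ?_⟩
  obtain ⟨ε, hε, hball⟩ := Metric.mem_nhds_iff.mp (mem_interior_iff_mem_nhds.mp hi)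
  have hdn : 0 < ‖d‖ + 1 := by positivity
  have hpos : 0 < ε / (‖d‖ + 1) / 2 := by positivity
  have hmem : z0 + ((ε / (‖d‖ + 1) / 2 : ℝ) : ℂ) * d ∈ T := by
    apply hball
    rw [Metric.mem_ball, dist_eq_norm, add_sub_cancel_left, norm_mul, Complex.norm_real,
      Real.norm_eq_abs, abs_of_pos hpos]
    have h2 : ε / (‖d‖ + 1) * ‖d‖ ≤ ε := by
      rw [div_mul_eq_mul_div, div_le_iff₀ hdn]
      nlinarith [norm_nonneg d]
    have h3 : ε / (‖d‖ + 1) / 2 * ‖d‖ = (ε / (‖d‖ + 1) * ‖d‖) / 2 := by ring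
    rw [h3]; linarith
  have h4 : f (z0 + ((ε / (‖d‖ + 1) / 2 : ℝ) : ℂ) * d) ≤ f z0 := hmax hmem
  rw [hd] at h4
  linarith

theorem Arc.close (a : Arc) {δ ε : ℝ} (hδ : 2 * δ < ε) (h : ∀ v ∈ a.V, |v.im| ≤ δ) :
    HexR (1 - ε) ⊆ a.T ∧ a.T ⊆ HexR (1 + ε) := by
  have hXom2 : X (om * om) = 0 := by rw [X_om_mul, Y_om]; simp
  have hYom2 : Y (om * om) = -1 := by rw [Y_om_mul, X_om, Y_om]; simp
  have hδ0 : 0 ≤ δ := (abs_nonneg _).trans (h _ ⟨0, zero_mem_seg, rfl⟩)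
  have hGa : ∀ z ∈ frontier a.T, z ∈ HexR (1 + 2 * δ) ∧ z ∉ HexR (1 - ε) := by
    intro z hz
    rw [Arc.frontier_T] at hz
    obtain ⟨j, v, hv, hzv⟩ := hz
    obtain ⟨c1, c2, c3, c4⟩ := closure_Rh_coord (a.V_subset hv)
    have c5 := abs_le.mp (YX_le (h v hv))
    rcases hzv with e | e
    · rw [e, w_mem_HexR, w_mem_HexR]
      constructor
      · refine ⟨?_, ?_, ?_⟩
        · rw [X_add, hXom2, abs_le]; constructor <;> linarith
        · rw [Y_add, hYom2, abs_le]; constructor <;> linarith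
        · rw [X_add, Y_add, hXom2, hYom2, abs_le]; constructor <;> linarith [c5.1, c5.2]
      · rintro ⟨-, -, hc⟩
        rw [X_add, Y_add, hXom2, hYom2, abs_le] at hc
        linarith [hc.1, hc.2, c5.1, c5.2]
    · rw [e, w_mem_HexR, w_mem_HexR]
      constructor
      · refine ⟨?_, ?_, ?_⟩
        · rw [X_add, X_om, abs_le]; constructor <;> linarith
        · rw [Y_add, Y_om, abs_le]; constructor <;> linarith
        · rw [X_add, Y_add, X_om, Y_om, abs_le]; constructor <;> linarith [c5.1, c5.2]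
      · rintro ⟨-, -, hc⟩
        rw [X_add, Y_add, X_om, Y_om, abs_le] at hc
        linarith [hc.1, hc.2, c5.1, c5.2]
  constructor
  · intro z hz
    have hpre : IsPreconnected (segment ℝ (0 : ℂ) z) := (convex_segment (0 : ℂ) z).isPreconnected
    have hX : IsLinearMap ℝ X := ⟨X_add, fun c z => by simp [X]; ring⟩
    have hY : IsLinearMap ℝ Y := ⟨Y_add, fun c z => by simp [Y]; ring⟩
    have hseg : ∀ x ∈ segment ℝ (0 : ℂ) z, x ∈ HexR (1 - ε) := by
      rintro x ⟨t, u, ht, hu, htu, rfl⟩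
      have hu1 : u ≤ 1 := by linarith
      rw [smul_zero, zero_add]
      obtain ⟨k1, k2, k3⟩ := hz
      refine ⟨?_, ?_, ?_⟩
      · rw [hX.map_smul, smul_eq_mul, abs_mul, abs_of_nonneg hu]
        nlinarith [abs_nonneg (X z)]
      · rw [hY.map_smul, smul_eq_mul, abs_mul, abs_of_nonneg hu]
        nlinarith [abs_nonneg (Y z)]
      · rw [hX.map_smul, hY.map_smul, smul_eq_mul, smul_eq_mul, ← mul_sub, abs_mul,
          abs_of_nonneg hu]
        nlinarith [abs_nonneg (Y z - X z)]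
    have hsub : segment ℝ (0 : ℂ) z ⊆ interior a.T ∪ a.Tᶜ := by
      intro x hx
      by_contra hc
      rw [Set.mem_union, not_or, Set.mem_compl_iff, not_not] at hc
      have hf : x ∈ frontier a.T := by
        rw [a.isClosed_T.frontier_eq]; exact ⟨hc.2, hc.1⟩
      exact (hGa x hf).2 (hseg x hx)
    have hin := hpre.subset_left_of_subset_union isOpen_interior a.isClosed_T.isOpen_compl
      (disjoint_compl_right.mono_left interior_subset) hsub
      ⟨0, left_mem_segment ℝ _ _, a.zero_mem_interior_T⟩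
    exact interior_subset (hin (right_mem_segment ℝ _ _))
  · intro z hz
    have eneg : ∀ v, X (-v) = - X v := by intro v; simp [X]; ring
    have eneg' : ∀ v, Y (-v) = - Y v := by intro v; simp [Y]; ring
    have hT := a.isCompact_T
    have hs := s_ne
    have m1 : X z ≤ 1 + 2 * δ := max_frontier hT continuous_X (d := 1)
      (by intro z t; rw [mul_one, X_add, X_ofReal])
      (fun x hx => (abs_le.mp (hGa x hx).1.1).2) hz
    have m2 : -X z ≤ 1 + 2 * δ := max_frontier (f := fun z => -X z) hT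
      continuous_X.neg (d := -1)
      (by intro z t; rw [mul_neg, mul_one, X_add, eneg, X_ofReal]; ring)
      (fun x hx => by linarith [(abs_le.mp (hGa x hx).1.1).1]) hz
    have m3 : Y z ≤ 1 + 2 * δ := max_frontier hT continuous_Y (d := 1)
      (by intro z t; rw [mul_one, Y_add, Y_ofReal])
      (fun x hx => (abs_le.mp (hGa x hx).1.2.1).2) hz
    have m4 : -Y z ≤ 1 + 2 * δ := max_frontier (f := fun z => -Y z) hT
      continuous_Y.neg (d := -1)
      (by intro z t; rw [mul_neg, mul_one, Y_add, eneg', Y_ofReal]; ring)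
      (fun x hx => by linarith [(abs_le.mp (hGa x hx).1.2.1).1]) hz
    have e5 : ∀ (z : ℂ) (t : ℝ), Y (z + (t : ℂ) * ⟨0, s / 2⟩) - X (z + (t : ℂ) * ⟨0, s / 2⟩)
        = Y z - X z + t := by
      intro z t
      rw [YX_eq, YX_eq, add_im, im_ofReal_mul]; field_simp
    have m5 : Y z - X z ≤ 1 + 2 * δ := max_frontier (f := fun z => Y z - X z) hT
      (continuous_Y.sub continuous_X) (d := ⟨0, s / 2⟩) e5 (fun x hx => (abs_le.mp (hGa x hx).1.2.2).2) hz
    have e6 : ∀ (z : ℂ) (t : ℝ), X (z + (t : ℂ) * ⟨0, -(s / 2)⟩) - Y (z + (t : ℂ) * ⟨0, -(s / 2)⟩)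
        = X z - Y z + t := by
      intro z t
      have h1 := YX_eq (z + (t : ℂ) * ⟨0, -(s / 2)⟩)
      have h2 := YX_eq z
      rw [add_im, im_ofReal_mul] at h1
      have h3 : 2 * (z.im + t * -(s / 2)) / s = 2 * z.im / s - t := by
        field_simp; ring
      simp only at h1
      rw [h3] at h1
      linarith
    have m6 : X z - Y z ≤ 1 + 2 * δ := max_frontier (f := fun z => X z - Y z) hT
      (continuous_X.sub continuous_Y) (d := ⟨0, -(s / 2)⟩) e6 (fun x hx => by linarith [(abs_le.mp (hGa x hx).1.2.2).1]) hz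
    refine ⟨?_, ?_, ?_⟩ <;> rw [abs_le] <;> constructor <;> linarith

end Pool.Agent.H60.GrunF
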