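import Pool.Agent.H60.GrunF.Seq

set_option autoImplicit false

/-! The invariants are preserved; the reflection symmetry; the height of the arcs. -/

namespace Pool.Agent.H60.GrunF

open Complex Pool.Agent.H60.Grun

/-- The part of the new arc on one side of the sharp corner. -/
def Bn (a : Arc) (p : ℂ) : Set ℂ := {z | (∃ x ∈ W, z = p * (starRingEnd ℂ) x) ∨
  (∃ v ∈ a.V, z = p + (1 - 2 * p) * (starRingEnd ℂ) v)}

lemma im_mul_conj_om (z : ℂ) : ((starRingEnd ℂ) ub * (1 - om * om * (starRingEnd ℂ) z)).im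
    = -(1 / 2) - ((starRingEnd ℂ) ub * z).im := by
  have hss := s_sq
  simp only [mul_im, mul_re, sub_re, sub_im, one_re, one_im, conj_re, conj_im, ub, om]
  linear_combination (z.re / 8 - s * z.im / 8) * hss

lemma im_ub_DD (L : ℝ) : ((starRingEnd ℂ) ub * DD L).im = -(1 / 2) := by
  rw [mul_im, DD_re, DD_im, conj_re, conj_im]
  unfold ub; simp only; ring

theorem St.next {a : Arc} {L : ℝ} {B : Set ℂ} (h : St a L B) (hp : Par (pp (L + s))) :
    St (nxt a (pp (L + s)) hp) (L + s) (Bn a (pp (L + s))) := by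
  have hs := s_pos
  have hr := r_pos
  have hL0 : 0 ≤ L := hr.le.trans h.pos
  have hL1 : 0 ≤ L + s := by linarith
  have hrel := rel hL1
  have hst := star hL0
  have hst' := star' hL0
  have hpne := pp_ne hL0
  have hpD := pp_mul hL1
  have hDs := DD_step L
  have hc := om_cube
  have hos := om_sum
  refine ⟨by linarith [h.pos], ?_, ?_, ?_⟩
  · intro v
    rw [mem_nxt]
    constructor
    · rintro (h1 | ⟨v0, hv0, h1⟩ | ⟨x, hx, h1⟩)
      · exact Or.inl h1
      · right
        refine ⟨pp (L + s) + (1 - 2 * pp (L + s)) * (starRingEnd ℂ) (1 - v0),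
          Or.inr ⟨1 - v0, a.V_symm hv0, rfl⟩, ?_⟩
        rw [h1, map_sub, map_one]; ring
      · right
        exact ⟨pp (L + s) * (starRingEnd ℂ) x, Or.inl ⟨x, hx, rfl⟩, h1⟩
    · rintro (h1 | ⟨b, ⟨x, hx, h2⟩ | ⟨v0, hv0, h2⟩, h1⟩)
      · exact Or.inl h1
      · right; right
        exact ⟨x, hx, by rw [h1, h2]⟩
      · right; left
        refine ⟨1 - v0, a.V_symm hv0, ?_⟩
        rw [h1, h2, map_sub, map_one]; ring
  · rintro b (⟨x, hx, rfl⟩ | ⟨v, hv, rfl⟩)
    · -- first part
      have hm : pp L * (starRingEnd ℂ) x ∈ a.V := (h.cV _).mpr (Or.inl ⟨x, hx, rfl⟩)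
      refine ⟨_, Or.inr ⟨_, a.V_symm hm, rfl⟩, ?_⟩
      simp only [map_sub, map_one, map_mul, conj_conj]
      linear_combination (-((starRingEnd ℂ) (pp (L + s)) * x)) * hst
    · have hv' := a.V_symm hv
      rcases (h.cV _).mp hv' with ⟨x, hx, h1⟩ | ⟨b0, hb0, h1⟩
      · refine ⟨pp (L + s) * (starRingEnd ℂ) x, Or.inl ⟨x, hx, rfl⟩, ?_⟩
        have e1 : v = 1 - pp L * (starRingEnd ℂ) x := by linear_combination -h1
        rw [e1]
        simp only [map_sub, map_one, map_mul, conj_conj, map_add, map_ofNat]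
        linear_combination (om * om * pp (L + s) * (starRingEnd ℂ) x) * hst' + (1 + om * om) * hrel
          - (om * pp (L + s) + (starRingEnd ℂ) (pp (L + s))) * hos
          - (om * (starRingEnd ℂ) (pp (L + s))
            + pp (L + s) * (starRingEnd ℂ) (pp (L + s)) * (starRingEnd ℂ) x) * hc
      · have e1 : v = b0 := by linear_combination -h1
        rw [e1]
        obtain ⟨b0', hb0', h2⟩ := h.mir b0 hb0
        have hm : b0' ∈ a.V := by
          have h3 : 1 - b0' ∈ a.V := (h.cV _).mpr (Or.inr ⟨b0', hb0', rfl⟩)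
          have := a.V_symm h3
          rwa [sub_sub_cancel] at this
        refine ⟨_, Or.inr ⟨_, hm, rfl⟩, ?_⟩
        have h4 := congrArg (starRingEnd ℂ) h2
        simp only [map_sub, map_one, map_mul, conj_conj, map_add, map_ofNat, conj_om] at h4 ⊢
        apply mul_left_cancel₀ hpne
        linear_combination ((starRingEnd ℂ) (pp (L + s)) * (1 - 2 * pp (L + s))) * h4
          + (-((starRingEnd ℂ) (pp (L + s)) * pp L)
            + (starRingEnd ℂ) (pp (L + s)) * (om * om * om * om) * b0) * hst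
          - (om * om * pp (L + s) * b0) * hst'
          - (om * om * om * pp (L + s) * (starRingEnd ℂ) (pp (L + s)) * b0) * hc
  · intro v hv
    rw [mem_nxt] at hv
    have hb : ∀ x ∈ W, -(13 / 2) ≤ ((starRingEnd ℂ) ub * (starRingEnd ℂ) x).im ∧
        ((starRingEnd ℂ) ub * (starRingEnd ℂ) x).im ≤ 6 := by
      intro x hx
      have := abs_le.mp (im_ub_W hx)
      constructor <;> linarith [this.1, this.2]
    rcases hv with ⟨x, hx, h1⟩ | ⟨v0, hv0, h1⟩ | ⟨x, hx, h1⟩
    · have e1 : DD (L + s) * v = (starRingEnd ℂ) x := by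
        rw [h1]; linear_combination ((starRingEnd ℂ) x) * hpD
      rw [e1]; exact hb x hx
    · have e1 : DD (L + s) * v = 1 - om * om * (starRingEnd ℂ) (DD L * v0) := by
        rw [h1, map_mul]
        linear_combination (1 - 2 * (starRingEnd ℂ) v0) * hpD + ((starRingEnd ℂ) v0) * hDs
      rw [e1, im_mul_conj_om]
      have := h.hgt v0 hv0
      constructor <;> linarith [this.1, this.2]
    · have e1 : DD (L + s) * v = DD (L + s) - (starRingEnd ℂ) x := by
        rw [h1]; linear_combination (-((starRingEnd ℂ) x)) * hpD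
      rw [e1, mul_sub, sub_im, im_ub_DD]
      have := hb x hx
      have h2 := abs_le.mp (im_ub_W hx)
      constructor <;> linarith [this.1, this.2, h2.1, h2.2]

theorem exists_St (P : Set ℂ → Prop) (h0 : P a0.V)
    (hn : ∀ (a : Arc) (p : ℂ) (hp : Par p), P a.V → P (nxt a p hp).V) (n : ℕ) :
    ∃ a B, St a (r + n * s) B ∧ P a.V := by
  have hs := s_pos
  have hr := r_pos
  induction n with
  | zero => exact ⟨a0, _, by simpa using st0, h0⟩
  | succ n ih =>
    obtain ⟨a, B, h, hP⟩ := ih
    have e1 : r + ((n + 1 : ℕ) : ℝ) * s = r + n * s + s := by push_cast; ring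
    have hp : Par (pp (r + n * s + s)) := by
      apply par
      have : 0 ≤ (n : ℝ) * s := by positivity
      linarith
    rw [e1]
    exact ⟨_, _, h.next hp, hn a _ hp hP⟩

/-! ### the height -/

theorem St.height {a : Arc} {L : ℝ} {B : Set ℂ} (h : St a L B) {v : ℂ} (hv : v ∈ a.V) :
    |v.im| ≤ 10 / L := by
  have hs := s_pos
  have hr := r_pos
  have hsl := s_lt
  have hL : 0 < L := lt_of_lt_of_le hr h.pos
  have h1 := h.hgt v hv
  have h2 := norm_V a hv
  have hN := normSq_DD L
  have e1 : normSq (DD L) * v.im = (DD L * v).im + L * ((starRingEnd ℂ) ub * (DD L * v)).im := by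
    rw [normSq_DD]
    simp only [mul_im, mul_re, conj_re, conj_im, DD_re, DD_im, ub]
    linear_combination (-(L * L * v.im / 4)) * s_sq
  have h3 : ‖DD L‖ ≤ 1 + L := by
    unfold DD
    refine (norm_add_le _ _).trans ?_
    rw [norm_one, norm_mul, norm_ub, Complex.norm_real, Real.norm_eq_abs, abs_of_pos hL, mul_one]
  have h4 : |(DD L * v).im| ≤ (1 + L) * 3 := by
    refine (abs_im_le_norm _).trans ?_
    rw [norm_mul]
    exact mul_le_mul h3 h2 (norm_nonneg _) (by linarith)
  have h5 : |normSq (DD L) * v.im| ≤ 10 * (1 + L) := by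
    rw [e1]
    refine (abs_add_le _ _).trans ?_
    rw [abs_mul, abs_of_pos hL]
    have h6 : |((starRingEnd ℂ) ub * (DD L * v)).im| ≤ 7 := by
      rw [abs_le]; constructor <;> linarith [h1.1, h1.2]
    nlinarith
  rw [abs_mul, abs_of_pos (normSq_DD_pos hL.le), hN] at h5
  rw [le_div_iff₀ hL]
  have h6 : 0 ≤ |v.im| := abs_nonneg _
  have h7 : (L * (1 + L)) * |v.im| ≤ 10 * (1 + L) := by
    refine le_trans (mul_le_mul_of_nonneg_right ?_ h6) h5
    have := s_gt
    nlinarith
  have h8 : 0 < 1 + L := by linarith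
  nlinarith

/-! ### the reflection -/

section refl

variable {a : Arc} {L : ℝ} {B : Set ℂ}

/-- The multiplier of the reflection. -/
noncomputable def crr (L : ℝ) : ℂ := -((om * om + pp L) * om)

lemma norm_crr (hL : 0 ≤ L) : ‖crr L‖ = 1 := by
  have h1 := rel hL
  have h2 : (om * om + pp L) * (starRingEnd ℂ) (om * om + pp L) = 1 := by
    rw [map_add, map_mul, conj_om]
    linear_combination h1 + (om * om * om + om * pp L + 1) * om_cube
  rw [mul_conj, normSq_eq_norm_sq] at h2
  have h3 : ‖om * om + pp L‖ ^ 2 = 1 := by exact_mod_cast h2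
  have h4 := norm_nonneg (om * om + pp L)
  unfold crr
  rw [norm_neg, norm_mul, norm_om, mul_one]
  nlinarith [sq_nonneg (‖om * om + pp L‖ - 1)]

lemma crr_mul_conj (hL : 0 ≤ L) : crr L * (starRingEnd ℂ) (crr L) = 1 := by
  rw [mul_conj, normSq_eq_norm_sq, norm_crr hL]; simp

/-- The reflection. -/
noncomputable def sg (L : ℝ) (hL : 0 ≤ L) : ℂ ≃ₜ ℂ where
  toFun z := crr L * (starRingEnd ℂ) z
  invFun z := crr L * (starRingEnd ℂ) z
  left_inv z := by
    simp only [map_mul, conj_conj]
    linear_combination z * crr_mul_conj hL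
  right_inv z := by
    simp only [map_mul, conj_conj]
    linear_combination z * crr_mul_conj hL
  continuous_toFun := continuous_const.mul Complex.continuous_conj
  continuous_invFun := continuous_const.mul Complex.continuous_conj

lemma St.refl_base (h : St a L B) {v : ℂ} (hv : v ∈ a.V) :
    crr L * (starRingEnd ℂ) (om * om + v) ∈ a.Ga := by
  have hL : 0 ≤ L := r_pos.le.trans h.pos
  have hrel := rel hL
  have hc := om_cube
  have hos := om_sum
  rcases (h.cV v).mp hv with ⟨x, hx, h1⟩ | ⟨b, hb, h1⟩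
  · have hm : pp L * (starRingEnd ℂ) (rho x) ∈ a.V :=
      (h.cV _).mpr (Or.inl ⟨rho x, rho_mem_W hx, rfl⟩)
    have h2 : w 2 * (om * om + pp L * (starRingEnd ℂ) (rho x)) ∈ a.Ga := ⟨2, _, hm, Or.inl rfl⟩
    have h3 := a.Ga_neg h2
    have e1 : crr L * (starRingEnd ℂ) (om * om + v)
        = -(w 2 * (om * om + pp L * (starRingEnd ℂ) (rho x))) := by
      rw [h1, w_2]
      unfold crr rho
      simp only [map_sub, map_one, map_mul, conj_conj, map_add, conj_om]
      linear_combination (-(om * om * om * om + om * om * pp L)) * hc - (x * om) * hrel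
    rw [e1]; exact h3
  · obtain ⟨b', hb', h2⟩ := h.mir b hb
    have hm : 1 - b' ∈ a.V := (h.cV _).mpr (Or.inr ⟨b', hb', rfl⟩)
    have h3 : w 0 * (om * om + (1 - b')) ∈ a.Ga := ⟨0, _, hm, Or.inl rfl⟩
    have e1 : crr L * (starRingEnd ℂ) (om * om + v) = w 0 * (om * om + (1 - b')) := by
      have hcp : (starRingEnd ℂ) (pp L) ≠ 0 := by
        rw [Ne, map_eq_zero]; exact pp_ne hL
      apply mul_left_cancel₀ hcp
      rw [h1, w_0]
      unfold crr
      simp only [map_sub, map_one, map_mul, map_add, conj_om]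
      linear_combination h2 + ((starRingEnd ℂ) b * om) * hrel
        - ((starRingEnd ℂ) (pp L) * (om * om * om * om + om * om * pp L)) * hc
        - ((starRingEnd ℂ) (pp L) * (om * om + pp L)) * hos
    rw [e1]; exact h3

lemma refl_w (j : Fin 3) {z : ℂ} (hz : crr L * (starRingEnd ℂ) z ∈ a.Ga) :
    crr L * (starRingEnd ℂ) (w j * z) ∈ a.Ga := by
  have hc : (starRingEnd ℂ) om = om * om := conj_om
  fin_cases j
  · show crr L * (starRingEnd ℂ) (w 0 * z) ∈ a.Ga
    rw [w_0, one_mul]; exact hz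
  · show crr L * (starRingEnd ℂ) (w 1 * z) ∈ a.Ga
    rw [w_1, map_mul, hc]
    have := a.Ga_om2 hz
    have e1 : crr L * (om * om * (starRingEnd ℂ) z) = om * om * (crr L * (starRingEnd ℂ) z) := by
      ring
    rw [e1]; exact this
  · show crr L * (starRingEnd ℂ) (w 2 * z) ∈ a.Ga
    rw [w_2, map_mul, map_mul, hc]
    have := a.Ga_om2 (a.Ga_om2 hz)
    have e1 : crr L * (om * om * (om * om) * (starRingEnd ℂ) z)
        = om * om * (om * om * (crr L * (starRingEnd ℂ) z)) := by
      ring
    rw [e1]; exact this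

lemma St.refl_Ga (h : St a L B) {z : ℂ} (hz : z ∈ a.Ga) : crr L * (starRingEnd ℂ) z ∈ a.Ga := by
  obtain ⟨j, v, hv, h1 | h1⟩ := hz
  · rw [h1]; exact refl_w j (h.refl_base hv)
  · have e1 : z = -(w j * (om * om + (1 - v))) := by
      rw [h1]; linear_combination (w j) * om_sum
    rw [e1, map_neg, mul_neg]
    exact a.Ga_neg (refl_w j (h.refl_base (a.V_symm hv)))

theorem St.refl_T (h : St a L B) : ∃ c : ℂ, ‖c‖ = 1 ∧
    (fun z : ℂ => c * (starRingEnd ℂ) z) '' a.T = a.T := by
  have hL : 0 ≤ L := r_pos.le.trans h.pos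
  refine ⟨crr L, norm_crr hL, ?_⟩
  have key : ∀ z ∈ frontier a.T, crr L * (starRingEnd ℂ) z ∈ frontier a.T := by
    intro z hz
    rw [Arc.frontier_T] at *
    exact h.refl_Ga hz
  exact a.image_T_eq (sg L hL) (by show crr L * (starRingEnd ℂ) 0 = 0; simp) key key

end refl

end Pool.Agent.H60.GrunF
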