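import Pool.Agent.H60.GrunF.NP
import Pool.Agent.H60.GrunF.Close
import Pool.Agent.H60.GrunF.Seq2

set_option autoImplicit false

/-! Assembly: tiles with six-fold and reflective symmetry near the regular hexagon. -/

namespace Pool.Agent.H60.GrunF

open Complex Pool.Agent.H60.Grun

/-! ### the arcs contain similar copies of `W` everywhere -/

lemma pp_r_ne : (1 : ℂ) - pp r ≠ 0 := by
  intro h
  have h1 : (pp r).im = 0 := by
    have : pp r = 1 := by linear_combination -h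
    rw [this, one_im]
  have h2 : (pp r).im = -(r / 2) / normSq (DD r) := by
    unfold pp; rw [inv_im, DD_im]
  rw [h2, div_eq_zero_iff] at h1
  have hr := r_pos
  rcases h1 with h1 | h1
  · linarith
  · exact (normSq_DD_pos hr.le).ne' h1

theorem NP_a0 : NP a0.V := by
  have e1 : a0.V = (fun z => 0 + pp r * (starRingEnd ℂ) z) '' W ∪
      (fun z => 1 + -(1 - pp r) * z) '' W := by
    ext v
    rw [st0.cV]
    constructor
    · rintro (⟨x, hx, h⟩ | ⟨_, ⟨x, hx, rfl⟩, h⟩)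
      · left; exact ⟨x, hx, by rw [h]; ring⟩
      · right; exact ⟨x, hx, by rw [h]; ring⟩
    · rintro (⟨x, hx, h⟩ | ⟨x, hx, h⟩)
      · left; exact ⟨x, hx, by rw [← h]; ring⟩
      · right; exact ⟨_, ⟨x, hx, rfl⟩, by rw [← h]; ring⟩
  rw [e1]
  exact (NP_W.image_conj 0 (pp_ne r_pos.le)).union (NP_W.image 1 (neg_ne_zero.mpr pp_r_ne))

theorem NP_nxt (a : Arc) (p : ℂ) (hp : Par p) (h : NP a.V) : NP (nxt a p hp).V := by
  have e1 : (nxt a p hp).V = (fun z => 0 + p * (starRingEnd ℂ) z) '' W ∪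
      ((fun z => p + (1 - 2 * p) * (starRingEnd ℂ) z) '' a.V ∪
        (fun z => 1 + -p * (starRingEnd ℂ) z) '' W) := by
    ext v
    rw [mem_nxt]
    constructor
    · rintro (⟨x, hx, h⟩ | ⟨x, hx, h⟩ | ⟨x, hx, h⟩)
      · left; exact ⟨x, hx, by rw [h]; ring⟩
      · right; left; exact ⟨x, hx, by rw [h]⟩
      · right; right; exact ⟨x, hx, by rw [h]; ring⟩
    · rintro (⟨x, hx, h⟩ | ⟨x, hx, h⟩ | ⟨x, hx, h⟩)
      · left; exact ⟨x, hx, by rw [← h]; ring⟩
      · right; left; exact ⟨x, hx, by rw [← h]⟩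
      · right; right; exact ⟨x, hx, by rw [← h]; ring⟩
  rw [e1]
  exact (NP_W.image_conj 0 hp.ne).union ((h.image_conj p hp.ne').union
    (NP_W.image_conj 1 (neg_ne_zero.mpr hp.ne)))

/-! ### countably many lines -/

theorem NP.not_countable_lines {S : Set ℂ} (hS : IsCompact S) (h : NP S) {z : ℂ} (hz : z ∈ S)
    {δ : ℝ} (hδ : 0 < δ) {κ : Type*} [Countable κ] (α β γ : κ → ℝ)
    (hne : ∀ i, α i ≠ 0 ∨ β i ≠ 0) :
    ∃ w ∈ S ∩ Metric.ball z δ, ∀ i, α i * w.re + β i * w.im ≠ γ i := by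
  by_contra hcon
  push Not at hcon
  have : CompactSpace S := isCompact_iff_compactSpace.mp hS
  let f : Option κ → Set S := fun o => match o with
    | none => {x | δ ≤ dist (x : ℂ) z}
    | some i => {x | α i * (x : ℂ).re + β i * (x : ℂ).im = γ i}
  have hc : ∀ o, IsClosed (f o) := by
    intro o
    rcases o with _ | i
    · exact isClosed_le continuous_const (continuous_subtype_val.dist continuous_const)
    · exact isClosed_eq ((continuous_const.mul (continuous_re.comp continuous_subtype_val)).add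
        (continuous_const.mul (continuous_im.comp continuous_subtype_val))) continuous_const
  have hU : ⋃ o, f o = Set.univ := by
    rw [Set.eq_univ_iff_forall]
    intro x
    rw [Set.mem_iUnion]
    by_cases hx : dist (x : ℂ) z < δ
    · obtain ⟨i, hi⟩ := hcon x ⟨x.2, hx⟩
      exact ⟨some i, hi⟩
    · exact ⟨none, not_lt.mp hx⟩
  have hd := dense_iUnion_interior_of_closed hc hU
  have ho : IsOpen {x : S | dist (x : ℂ) z < δ} :=
    isOpen_lt (continuous_subtype_val.dist continuous_const) continuous_const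
  obtain ⟨x, hx1, hx2⟩ := hd.inter_open_nonempty _ ho ⟨⟨z, hz⟩, by simpa using hδ⟩
  obtain ⟨o, ho2⟩ := Set.mem_iUnion.mp hx2
  rcases o with _ | i
  · have h1 : x ∈ f none := interior_subset ho2
    have h2 : δ ≤ dist (x : ℂ) z := h1
    exact absurd hx1 (not_lt.mpr h2)
  · obtain ⟨ρ, hρ, hball⟩ := Metric.mem_nhds_iff.mp (mem_interior_iff_mem_nhds.mp ho2)
    refine h.not_lines x.2 hρ (fun _ : Unit => α i) (fun _ => β i) (fun _ => γ i)
      (fun _ => hne i) ?_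
    rintro w ⟨hw1, hw2⟩
    refine ⟨(), ?_⟩
    exact hball (show (⟨w, hw1⟩ : S) ∈ Metric.ball x ρ from hw2)

theorem Arc.isCompact_frontier (a : Arc) : IsCompact (frontier a.T) :=
  a.isCompact_T.of_isClosed_subset isClosed_frontier a.isClosed_T.frontier_subset

theorem Arc.nowhere (a : Arc) (h : NP a.V) {z : ℂ} (hz : z ∈ frontier a.T) {δ : ℝ} (hδ : 0 < δ)
    {κ : Type*} [Countable κ] (α β γ : κ → ℝ) (hne : ∀ i, α i ≠ 0 ∨ β i ≠ 0) :
    ∃ w ∈ frontier a.T ∩ Metric.ball z δ, ∀ i, α i * w.re + β i * w.im ≠ γ i := by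
  apply NP.not_countable_lines a.isCompact_frontier _ hz hδ α β γ hne
  rw [a.frontier_T]
  exact a.NP_Ga h

theorem Arc.T_ne_countable_hull (a : Arc) (h : NP a.V) (P : ℕ → Finset ℂ) :
    a.T ≠ ⋃ i, convexHull ℝ (P i : Set ℂ) := by
  intro hT
  have hz : w 0 * (om * om + a.J 0) ∈ frontier a.T := by
    rw [a.frontier_T]; exact ⟨0, _, ⟨0, zero_mem_seg, rfl⟩, Or.inl rfl⟩
  choose α β γ hne hline using fun i : (Σ i : ℕ, {x // x ∈ P i} × {x // x ∈ P i}) =>
    exists_line (i.2.1 : ℂ) (i.2.2 : ℂ)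
  obtain ⟨x, ⟨hx, -⟩, hx2⟩ := a.nowhere h hz one_pos α β γ hne
  have hxT : x ∈ a.T := a.isClosed_T.frontier_subset hx
  have h1 := hxT
  rw [hT] at h1
  obtain ⟨i, hi⟩ := Set.mem_iUnion.mp h1
  have hfin : (P i : Set ℂ).Finite := (P i).finite_toSet
  have h3 : x ∈ frontier (convexHull ℝ (P i : Set ℂ)) := by
    rw [(hfin.isClosed_convexHull ℝ).frontier_eq]
    refine ⟨hi, fun hc => ?_⟩
    rw [a.isClosed_T.frontier_eq] at hx
    apply hx.2
    have h4 : convexHull ℝ (P i : Set ℂ) ⊆ a.T := by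
      rw [hT]; exact Set.subset_iUnion (fun i => convexHull ℝ (P i : Set ℂ)) i
    exact interior_mono h4 hc
  obtain ⟨p, hp, q', hq, hseg⟩ := frontier_hull_subset hfin h3
  exact hx2 ⟨i, ⟨p, hp⟩, ⟨q', hq⟩⟩ (hline ⟨i, ⟨p, hp⟩, ⟨q', hq⟩⟩ x hseg)

/-! ### the lattice -/

lemma sqrt3_eq : (Real.sqrt 3 : ℝ) = s := rfl

lemma lattice_eq (m n : ℤ) : ((Real.sqrt 3 : ℝ) : ℂ) * I *
    ((m : ℂ) + (n : ℂ) * Complex.exp (((Real.pi / 3 : ℝ) : ℂ) * Complex.I))
    = lat (-m - 2 * n) (-n) := by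
  rw [← ze_eq]
  have hss := s_sq
  have hm : (m : ℂ).re = m := by simp
  have hm' : (m : ℂ).im = 0 := by simp
  have hn : (n : ℂ).re = n := by simp
  have hn' : (n : ℂ).im = 0 := by simp
  apply Complex.ext
  · simp only [mul_re, mul_im, add_re, add_im, ofReal_re, ofReal_im, I_re, I_im, ze, om, neg_re,
      neg_im, hm, hm', hn, hn', lat, sqrt3_eq]
    push_cast
    linear_combination (-(n : ℝ) / 2) * hss
  · simp only [mul_re, mul_im, add_re, add_im, ofReal_re, ofReal_im, I_re, I_im, ze, om, neg_re,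
      neg_im, hm, hm', hn, hn', lat, sqrt3_eq]
    push_cast
    linear_combination (s * (n : ℝ) / 4) * hss

lemma lat_surj (a c : ℤ) : ∃ p : ℤ × ℤ, lat (-p.1 - 2 * p.2) (-p.2) = lat a c :=
  ⟨(2 * c - a, -c), by congr 1 <;> ring⟩

/-- The translation vector of the hexagonal lattice. -/
noncomputable def hv (p : ℤ × ℤ) : ℂ := ((Real.sqrt 3 : ℝ) : ℂ) * I *
    ((p.1 : ℂ) + (p.2 : ℂ) * Complex.exp (((Real.pi / 3 : ℝ) : ℂ) * Complex.I))

lemma hv_eq (p : ℤ × ℤ) : hv p = lat (-p.1 - 2 * p.2) (-p.2) := lattice_eq p.1 p.2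

theorem Arc.hv_cover (a : Arc) : (⋃ p : ℤ × ℤ, (fun z => z + hv p) '' a.T) = Set.univ := by
  rw [Set.eq_univ_iff_forall]
  intro z
  have h1 : z ∈ ⋃ p : ℤ × ℤ, (fun z => z + lat p.1 p.2) '' a.T := by rw [a.T_cover]; trivial
  obtain ⟨p, hp⟩ := Set.mem_iUnion.mp h1
  obtain ⟨p', hp'⟩ := lat_surj p.1 p.2
  rw [Set.mem_iUnion]
  refine ⟨p', ?_⟩
  rw [hv_eq, hp']; exact hp

theorem Arc.hv_disjoint (a : Arc) : Pairwise fun p p' : ℤ × ℤ =>
    Disjoint (interior ((fun z => z + hv p) '' a.T)) (interior ((fun z => z + hv p') '' a.T)) := by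
  intro p p' hne
  have h1 : ((-p.1 - 2 * p.2, -p.2) : ℤ × ℤ) ≠ (-p'.1 - 2 * p'.2, -p'.2) := by
    intro h
    apply hne
    rw [Prod.mk.injEq] at h
    obtain ⟨h1, h2⟩ := h
    apply Prod.ext <;> omega
  have h2 := a.T_disjoint h1
  have e1 := hv_eq p
  have e2 := hv_eq p'
  simp only at h2
  show Disjoint (interior ((fun z => z + hv p) '' a.T)) (interior ((fun z => z + hv p') '' a.T))
  rw [e1, e2]
  exact h2

/-! ### the main statement -/

theorem main (ε : ℝ) (hε : 0 < ε) : ∃ T : Set ℂ,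
    Nonempty (T ≃ₜ Metric.closedBall (0 : ℂ) 1) ∧
    (fun z : ℂ => Complex.exp (((Real.pi / 3 : ℝ) : ℂ) * Complex.I) * z) '' T = T ∧
    (∃ c : ℂ, ‖c‖ = 1 ∧ (fun z : ℂ => c * (starRingEnd ℂ) z) '' T = T) ∧
    (⋃ p : ℤ × ℤ, (fun z => z + hv p) '' T) = Set.univ ∧
    (Pairwise fun p p' : ℤ × ℤ =>
      Disjoint (interior ((fun z => z + hv p) '' T)) (interior ((fun z => z + hv p') '' T))) ∧
    HexR (1 - ε) ⊆ T ∧ T ⊆ HexR (1 + ε) ∧
    (∀ z ∈ frontier T, ∀ δ : ℝ, 0 < δ → ∀ α β γ : ℕ → ℝ, (∀ i, α i ≠ 0 ∨ β i ≠ 0) →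
      ∃ w ∈ frontier T ∩ Metric.ball z δ, ∀ i, α i * w.re + β i * w.im ≠ γ i) ∧
    ∀ P : ℕ → Finset ℂ, T ≠ ⋃ i, convexHull ℝ (P i : Set ℂ) := by
  obtain ⟨n, hn⟩ := exists_nat_gt (20 / ε)
  obtain ⟨a, B, h, hNP⟩ := exists_St NP NP_a0 NP_nxt n
  have hs := s_gt
  have hr := r_pos
  have hn0 : (0 : ℝ) ≤ n := Nat.cast_nonneg n
  have hL : (n : ℝ) ≤ r + n * s := by nlinarith
  have hL0 : 0 < r + n * s := by
    have : 0 ≤ (n : ℝ) * s := by positivity
    linarith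
  have hδ : 2 * (10 / (r + n * s)) < ε := by
    have h1 : 20 / ε < r + n * s := lt_of_lt_of_le hn hL
    rw [div_lt_iff₀ hε] at h1
    have h2 : 2 * (10 / (r + n * s)) = 20 / (r + n * s) := by ring
    rw [h2, div_lt_iff₀ hL0]
    linarith
  obtain ⟨c1, c2⟩ := a.close hδ (fun v hv => h.height hv)
  refine ⟨a.T, a.T_homeo_ball, a.rot_T, h.refl_T, a.hv_cover, a.hv_disjoint, c1, c2, ?_, ?_⟩
  · intro z hz δ hδ α β γ hne
    exact a.nowhere hNP hz hδ α β γ hne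
  · exact a.T_ne_countable_hull hNP

end Pool.Agent.H60.GrunF
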