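import Pool.Agent.H60.Grun.Final

set_option autoImplicit false

/-! The tile of a general arc: the edges of the regular hexagonal tiling are replaced by rotated
copies of an arc which is the image of the unit segment under a homeomorphism of the plane that is
the identity outside the rhombus `Rh`. -/

namespace Pool.Agent.H60.GrunF

open Complex Pool.Agent.H60.Grun

/-- A homeomorphism of the plane supported in the rhombus, the image of the unit segment being
centrally symmetric. -/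
structure Arc where
  J : ℂ ≃ₜ ℂ
  out : ∀ z, z ∉ Rh → J z = z
  sym : ∀ z ∈ J '' seg, 1 - z ∈ J '' seg

namespace Arc

variable (a : Arc)

/-- The arc itself. -/
def V : Set ℂ := a.J '' seg

lemma V_symm {z : ℂ} (h : z ∈ a.V) : 1 - z ∈ a.V := a.sym z h

/-- The placed copy of the homeomorphism. -/
noncomputable def hh (i : Idx) : ℂ ≃ₜ ℂ := (Pl i).symm.trans (a.J.trans (Pl i))

lemma hh_apply (i : Idx) (z : ℂ) : a.hh i z = Pl i (a.J ((Pl i).symm z)) := rfl

lemma hh_Pl (i : Idx) (z : ℂ) : a.hh i (Pl i z) = Pl i (a.J z) := by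
  rw [hh_apply, Homeomorph.symm_apply_apply]

lemma hh_of_not_mem {i : Idx} {z : ℂ} (h : z ∉ U i) : a.hh i z = z := by
  rw [hh_apply, a.out _ h, Homeomorph.apply_symm_apply]

lemma Jsymm_of_not_mem {z : ℂ} (h : z ∉ Rh) : a.J.symm z = z := by
  rw [Homeomorph.symm_apply_eq, a.out _ h]

lemma exists_GG : ∃ g : ℂ ≃ₜ ℂ, (∀ i, ∀ z ∈ U i, g z = a.hh i z) ∧
    (∀ z, (∀ i, z ∉ U i) → g z = z) := by
  apply glue U a.hh U_disjoint (fun i z h => a.hh_of_not_mem h)
  · intro ε hε
    obtain ⟨δ, hδ, H⟩ := Metric.uniformContinuous_iff.mp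
      (unif_displacement a.J (fun z h => a.out _ h)) ε hε
    refine ⟨δ, hδ, ?_⟩
    intro i z z' hz
    have e1 : ∀ z, a.hh i z - z = w i.2.2 * (a.J ((Pl i).symm z) - (Pl i).symm z) := by
      intro z
      rw [← Pl_sub, ← hh_apply, Homeomorph.apply_symm_apply]
    rw [e1, e1, ← mul_sub, norm_mul, norm_w, one_mul]
    have := @H ((Pl i).symm z) ((Pl i).symm z') (by rw [dist_eq_norm, norm_Pl_symm]; exact hz)
    rwa [dist_eq_norm] at this
  · intro ε hε
    obtain ⟨δ, hδ, H⟩ := Metric.uniformContinuous_iff.mp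
      (unif_displacement a.J.symm (fun z h => a.Jsymm_of_not_mem h)) ε hε
    refine ⟨δ, hδ, ?_⟩
    intro i z z' hz
    have e1 : ∀ z, (a.hh i).symm z - z
        = w i.2.2 * (a.J.symm ((Pl i).symm z) - (Pl i).symm z) := by
      intro z
      have : (a.hh i).symm z = Pl i (a.J.symm ((Pl i).symm z)) := rfl
      rw [← Pl_sub, ← this, Homeomorph.apply_symm_apply]
    rw [e1, e1, ← mul_sub, norm_mul, norm_w, one_mul]
    have := @H ((Pl i).symm z) ((Pl i).symm z') (by rw [dist_eq_norm, norm_Pl_symm]; exact hz)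
    rwa [dist_eq_norm] at this

noncomputable def GG : ℂ ≃ₜ ℂ := a.exists_GG.choose

lemma GG_mem {i : Idx} {z : ℂ} (h : z ∈ U i) : a.GG z = a.hh i z :=
  a.exists_GG.choose_spec.1 i z h

lemma GG_not_mem {z : ℂ} (h : ∀ i, z ∉ U i) : a.GG z = z := a.exists_GG.choose_spec.2 z h

lemma GG_closure {i : Idx} {u : ℂ} (h : u ∈ closure Rh) : a.GG (Pl i u) = Pl i (a.J u) := by
  have hcl : IsClosed {u : ℂ | a.GG (Pl i u) = Pl i (a.J u)} :=
    isClosed_eq (a.GG.continuous.comp (Pl i).continuous) ((Pl i).continuous.comp a.J.continuous)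
  refine closure_minimal ?_ hcl h
  intro v hv
  have hU : Pl i v ∈ U i := by
    show (Pl i).symm (Pl i v) ∈ Rh
    rwa [Homeomorph.symm_apply_apply]
  show a.GG (Pl i v) = Pl i (a.J v)
  rw [GG_mem a hU, hh_Pl]

lemma GG_add_lat (x c : ℤ) (z : ℂ) : a.GG (z + lat x c) = a.GG z + lat x c := by
  by_cases h : ∃ i, z ∈ U i
  · obtain ⟨i, hi⟩ := h
    rw [GG_mem a hi, GG_mem a (add_lat_mem_U hi x c)]
    obtain ⟨u, hu, rfl⟩ := mem_U hi
    rw [← Pl_apply, hh_Pl, Pl_add_lat, Pl_add_lat, hh_Pl]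
  · push Not at h
    rw [GG_not_mem a h, GG_not_mem]
    intro i hi
    have := add_lat_mem_U hi (-x) (-c)
    rw [lat_neg, add_neg_cancel_right] at this
    exact h _ this

/-- The tile. -/
noncomputable def T : Set ℂ := a.GG '' Hex

lemma T_homeo_ball : Nonempty (a.T ≃ₜ Metric.closedBall (0 : ℂ) 1) := by
  obtain ⟨h, -, h2, -⟩ := exists_homeomorph_image_interior_closure_frontier_eq_unitBall convex_Hex
    ⟨0, by rw [interior_Hex]; exact zero_mem_HexO⟩ bounded_Hex
  rw [isClosed_Hex.closure_eq] at h2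
  have e1 : Hex ≃ₜ a.T := a.GG.image Hex
  have e2 : Hex ≃ₜ h '' Hex := h.image Hex
  rw [h2] at e2
  exact ⟨e1.symm.trans e2⟩

lemma T_cover : (⋃ p : ℤ × ℤ, (fun z => z + lat p.1 p.2) '' a.T) = Set.univ := by
  rw [Set.eq_univ_iff_forall]
  intro z
  obtain ⟨x, c, h⟩ := Hex_cover (a.GG.symm z)
  rw [Set.mem_iUnion]
  refine ⟨(x, c), a.GG (a.GG.symm z - lat x c), ⟨_, h, rfl⟩, ?_⟩
  show a.GG (a.GG.symm z - lat x c) + lat x c = z
  rw [← GG_add_lat, sub_add_cancel, Homeomorph.apply_symm_apply]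

lemma interior_tr_T (p : ℤ × ℤ) {z : ℂ} (h : z ∈ interior ((fun z => z + lat p.1 p.2) '' a.T)) :
    a.GG.symm z - lat p.1 p.2 ∈ HexO := by
  let e : ℂ ≃ₜ ℂ := (Homeomorph.addRight (lat p.1 p.2)).trans a.GG
  have e1 : (fun z => z + lat p.1 p.2) '' a.T = e '' Hex := by
    ext x
    constructor
    · rintro ⟨_, ⟨y, hy, rfl⟩, rfl⟩
      refine ⟨y, hy, ?_⟩
      show a.GG (y + lat p.1 p.2) = _
      rw [GG_add_lat]
    · rintro ⟨y, hy, rfl⟩
      refine ⟨a.GG y, ⟨y, hy, rfl⟩, ?_⟩
      show _ = a.GG (y + lat p.1 p.2)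
      rw [GG_add_lat]
  rw [e1, ← Homeomorph.image_interior, interior_Hex] at h
  obtain ⟨y, hy, rfl⟩ := h
  have : a.GG.symm (e y) = y + lat p.1 p.2 := by
    show a.GG.symm (a.GG (y + lat p.1 p.2)) = _
    rw [Homeomorph.symm_apply_apply]
  rw [this, add_sub_cancel_right]
  exact hy

lemma T_disjoint {p p' : ℤ × ℤ} (h : p ≠ p') :
    Disjoint (interior ((fun z => z + lat p.1 p.2) '' a.T))
      (interior ((fun z => z + lat p'.1 p'.2) '' a.T)) := by
  rw [Set.disjoint_left]
  intro z h1 h2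
  obtain ⟨e1, e2⟩ := HexO_disjoint (a.interior_tr_T p h1) (a.interior_tr_T p' h2)
  exact h (Prod.ext e1 e2)

/-! ### the boundary of the tile -/

lemma interior_T : interior a.T = a.GG '' HexO := by
  unfold T; rw [← Homeomorph.image_interior, interior_Hex]

lemma isClosed_T : IsClosed a.T := a.GG.isClosedMap _ isClosed_Hex

lemma isCompact_T : IsCompact a.T :=
  (Metric.isCompact_of_isClosed_isBounded isClosed_Hex bounded_Hex).image a.GG.continuous

lemma closure_interior_T : closure (interior a.T) = a.T := by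
  unfold T
  rw [← Homeomorph.image_interior, ← Homeomorph.image_closure, closure_interior_Hex]

lemma isPreconnected_interior_T : IsPreconnected (interior a.T) := by
  rw [interior_T, ← interior_Hex]
  exact (convex_Hex.interior.isPreconnected).image _ a.GG.continuous.continuousOn

lemma GG_zero : a.GG 0 = 0 := a.GG_not_mem zero_not_mem_U

lemma zero_mem_interior_T : (0 : ℂ) ∈ interior a.T := by
  rw [interior_T]
  exact ⟨0, zero_mem_HexO, a.GG_zero⟩

/-- A homeomorphism fixing `0` and preserving the boundary preserves the tile. -/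
lemma image_T_eq (φ : ℂ ≃ₜ ℂ) (h0 : φ 0 = 0) (h1 : ∀ z ∈ frontier a.T, φ z ∈ frontier a.T)
    (h2 : ∀ z ∈ frontier a.T, φ.symm z ∈ frontier a.T) : φ '' a.T = a.T := by
  have key : ∀ ψ : ℂ ≃ₜ ℂ, ψ 0 = 0 → (∀ z ∈ frontier a.T, ψ.symm z ∈ frontier a.T) →
      ψ '' interior a.T ⊆ interior a.T := by
    intro ψ hψ0 hψ
    have hpre : IsPreconnected (ψ '' interior a.T) :=
      a.isPreconnected_interior_T.image _ ψ.continuous.continuousOn
    have hsub : ψ '' interior a.T ⊆ interior a.T ∪ a.Tᶜ := by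
      rintro _ ⟨z, hz, rfl⟩
      by_contra hc
      rw [Set.mem_union, not_or, Set.mem_compl_iff, not_not] at hc
      have hf : ψ z ∈ frontier a.T := by
        rw [a.isClosed_T.frontier_eq]; exact ⟨hc.2, hc.1⟩
      have := hψ _ hf
      rw [Homeomorph.symm_apply_apply, a.isClosed_T.frontier_eq] at this
      exact this.2 hz
    apply hpre.subset_left_of_subset_union isOpen_interior a.isClosed_T.isOpen_compl _ hsub
    · exact ⟨0, ⟨0, a.zero_mem_interior_T, hψ0⟩, a.zero_mem_interior_T⟩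
    · exact disjoint_compl_right.mono_left interior_subset
  have a1 := key φ h0 h2
  have a2 := key φ.symm (by rw [Homeomorph.symm_apply_eq, h0]) (by simpa using h1)
  have a3 : φ '' interior a.T = interior a.T := by
    apply Set.Subset.antisymm a1
    intro z hz
    exact ⟨φ.symm z, a2 ⟨z, hz, rfl⟩, φ.apply_symm_apply z⟩
  calc φ '' a.T = φ '' closure (interior a.T) := by rw [closure_interior_T]
    _ = closure (φ '' interior a.T) := φ.image_closure _
    _ = a.T := by rw [a3, closure_interior_T]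

/-- The boundary curve. -/
def Ga : Set ℂ := {z | ∃ j : Fin 3, ∃ v ∈ a.V, z = w j * (om * om + v) ∨ z = w j * (om + v)}

lemma GG_seg (i : Idx) {t : ℂ} (ht : t ∈ seg) :
    a.GG (bl i.1 i.2.1 + w i.2.2 * t) = bl i.1 i.2.1 + w i.2.2 * a.J t := by
  have := a.GG_closure (i := i) (seg_subset_closure_Rh ht)
  rwa [Pl_apply, Pl_apply] at this

/-- values of `GG` on the edges of the hexagon -/
lemma GG_edge {t : ℂ} (ht : t ∈ seg) (j : Fin 3) :
    a.GG (w j * (om * om + t)) = w j * (om * om + a.J t) ∧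
    a.GG (w j * (om + t)) = w j * (om + a.J t) := by
  have hc := om_cube
  fin_cases j
  · simp only [Fin.zero_eta, w_0, one_mul]
    constructor
    · have := a.GG_seg (0, 0, 0) ht
      simpa [bl_0_0] using this
    · have := a.GG_seg (-1, 0, 0) ht
      simpa [bl_m1_0] using this
  · simp only [Fin.mk_one, w_1]
    constructor
    · have := a.GG_seg (1, 1, 1) ht
      simp only [bl_1_1, w_1] at this
      have e1 : ∀ z, om * (om * om + z) = 1 + om * z := by
        intro z; linear_combination hc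
      rw [e1, e1]; exact this
    · have := a.GG_seg (0, 0, 1) ht
      simp only [bl_0_0, w_1] at this
      have e1 : ∀ z, om * (om + z) = om * om + om * z := by intro z; ring
      rw [e1, e1]; exact this
  · simp only [Fin.reduceFinMk, w_2]
    constructor
    · have := a.GG_seg (-1, 0, 2) ht
      simp only [bl_m1_0, w_2] at this
      have e1 : ∀ z, om * om * (om * om + z) = om + om * om * z := by
        intro z; linear_combination om * hc
      rw [e1, e1]; exact this
    · have := a.GG_seg (1, 1, 2) ht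
      simp only [bl_1_1, w_2] at this
      have e1 : ∀ z, om * om * (om + z) = 1 + om * om * z := by
        intro z; linear_combination hc
      rw [e1, e1]; exact this

lemma frontier_T : frontier a.T = a.Ga := by
  unfold T
  rw [← Homeomorph.image_frontier]
  ext z
  constructor
  · rintro ⟨x, hx, rfl⟩
    obtain ⟨j, t, ht, h | h⟩ := frontier_Hex_cases hx
    · exact ⟨j, a.J t, ⟨t, ht, rfl⟩, Or.inl (by rw [h, (a.GG_edge ht j).1])⟩
    · exact ⟨j, a.J t, ⟨t, ht, rfl⟩, Or.inr (by rw [h, (a.GG_edge ht j).2])⟩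
  · rintro ⟨j, _, ⟨t, ht, rfl⟩, h | h⟩
    · obtain ⟨x, ⟨h0, h1⟩, rfl⟩ := ht
      refine ⟨_, (edge_mem_frontier h0 h1 j).1, ?_⟩
      rw [(a.GG_edge ⟨x, ⟨h0, h1⟩, rfl⟩ j).1, h]
    · obtain ⟨x, ⟨h0, h1⟩, rfl⟩ := ht
      refine ⟨_, (edge_mem_frontier h0 h1 j).2, ?_⟩
      rw [(a.GG_edge ⟨x, ⟨h0, h1⟩, rfl⟩ j).2, h]

lemma Ga_neg {z : ℂ} (h : z ∈ a.Ga) : -z ∈ a.Ga := by
  obtain ⟨j, v, hv, h | h⟩ := h
  · refine ⟨j, 1 - v, a.V_symm hv, Or.inr ?_⟩
    rw [h]; linear_combination (-w j) * om_sum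
  · refine ⟨j, 1 - v, a.V_symm hv, Or.inl ?_⟩
    rw [h]; linear_combination (-w j) * om_sum

lemma Ga_om {z : ℂ} (h : z ∈ a.Ga) : om * z ∈ a.Ga := by
  obtain ⟨j, v, hv, h | h⟩ := h
  · refine ⟨j + 1, v, hv, Or.inl ?_⟩
    rw [h, ← om_mul_w]; ring
  · refine ⟨j + 1, v, hv, Or.inr ?_⟩
    rw [h, ← om_mul_w]; ring

lemma Ga_om2 {z : ℂ} (h : z ∈ a.Ga) : om * om * z ∈ a.Ga := by
  rw [mul_assoc]; exact a.Ga_om (a.Ga_om h)

lemma rot_T : (fun z : ℂ => Complex.exp (((Real.pi / 3 : ℝ) : ℂ) * Complex.I) * z) '' a.T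
    = a.T := by
  have h := a.image_T_eq (Homeomorph.mulLeft₀ ze ze_ne) (mul_zero _) ?_ ?_
  · rw [← ze_eq]
    exact h
  · intro z hz
    rw [frontier_T] at *
    have h1 := a.Ga_neg (a.Ga_om (a.Ga_om hz))
    have e : (Homeomorph.mulLeft₀ ze ze_ne) z = -(om * (om * z)) := by
      show ze * z = _
      unfold ze; ring
    rw [e]; exact h1
  · intro z hz
    rw [frontier_T] at *
    have h1 := a.Ga_neg (a.Ga_om hz)
    have e : (Homeomorph.mulLeft₀ ze ze_ne).symm z = -(om * z) := by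
      rw [Homeomorph.symm_apply_eq]
      show z = ze * -(om * z)
      unfold ze; linear_combination (-z) * om_cube
    rw [e]; exact h1

end Arc

end Pool.Agent.H60.GrunF
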