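import Pool.Agent.H60.GrunF.Close

set_option autoImplicit false

/-! Limits of similar copies of a compact set which approach the regular hexagon. -/

namespace Pool.Agent.H60.GrunF

open Complex Pool.Agent.H60.Grun Filter Topology

/-- The norm whose unit ball is the regular hexagon. -/
noncomputable def NN (z : ℂ) : ℝ := max (max |X z| |Y z|) |Y z - X z|

lemma mem_HexR {ρ : ℝ} {z : ℂ} : z ∈ HexR ρ ↔ NN z ≤ ρ := by
  show (|X z| ≤ ρ ∧ |Y z| ≤ ρ ∧ |Y z - X z| ≤ ρ) ↔ _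
  unfold NN
  rw [max_le_iff, max_le_iff, and_assoc]

lemma continuous_NN : Continuous NN :=
  (continuous_X.abs.max continuous_Y.abs).max (continuous_Y.sub continuous_X).abs

lemma NN_nonneg (z : ℂ) : 0 ≤ NN z := le_max_of_le_right (abs_nonneg _)

lemma NN_real_mul {t : ℝ} (ht : 0 ≤ t) (z : ℂ) : NN ((t : ℂ) * z) = t * NN z := by
  have e1 : X ((t : ℂ) * z) = t * X z := by simp [X]; ring
  have e2 : Y ((t : ℂ) * z) = t * Y z := by simp [Y]; ring
  unfold NN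
  rw [e1, e2, ← mul_sub, abs_mul, abs_mul, abs_mul, abs_of_nonneg ht, mul_max_of_nonneg _ _ ht,
    mul_max_of_nonneg _ _ ht]

lemma norm_le_NN (z : ℂ) : ‖z‖ ≤ 2 * NN z := by
  have hs := s_pos
  have hsl := s_lt
  have h1 : |X z| ≤ NN z := (le_max_left _ _).trans (le_max_left _ _)
  have h2 : |Y z| ≤ NN z := (le_max_right _ _).trans (le_max_left _ _)
  have h3 : |Y z - X z| ≤ NN z := le_max_right _ _
  rw [abs_le] at h1 h2 h3
  have a1 : |z.re| ≤ NN z := by rw [re_eq z, abs_le]; constructor <;> linarith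
  have a2 : |z.im| ≤ NN z := by rw [im_eq z, abs_le]; constructor <;> nlinarith
  have := Complex.norm_le_abs_re_add_abs_im z
  linarith

theorem limit_hex {K : Set ℂ} (hK : IsCompact K) (h : ∀ n : ℕ, ∃ b c : ℂ,
    HexR (1 - 1 / ((n : ℝ) + 1)) ⊆ (fun z => b + c * z) '' K ∧
    (fun z => b + c * z) '' K ⊆ HexR (1 + 1 / ((n : ℝ) + 1))) :
    ∃ b c : ℂ, (fun z => b + c * z) '' K = HexR 1 := by
  choose b c h1 h2 using h
  have hn1 : ∀ n : ℕ, 1 / ((n : ℝ) + 1) ≤ 1 := by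
    intro n
    have : (0 : ℝ) ≤ n := Nat.cast_nonneg n
    rw [div_le_one (by linarith)]; linarith
  have hbd : ∀ n, ∀ k ∈ K, ‖b n + c n * k‖ ≤ 4 := by
    intro n k hk
    have h3 := mem_HexR.mp (h2 n ⟨k, hk, rfl⟩)
    have h4 := norm_le_NN (b n + c n * k)
    have h5 := hn1 n
    simp only at h3
    linarith
  have m0 : (0 : ℂ) ∈ HexR (1 - 1 / (((1 : ℕ) : ℝ) + 1)) := by
    rw [mem_HexR]
    have : NN 0 = 0 := by simp [NN, X, Y]
    rw [this]; norm_num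
  have m1 : ((1 / 2 : ℝ) : ℂ) ∈ HexR (1 - 1 / (((1 : ℕ) : ℝ) + 1)) := by
    refine ⟨?_, ?_, ?_⟩
    · rw [X_ofReal]; norm_num
    · rw [Y_ofReal]; norm_num
    · rw [X_ofReal, Y_ofReal]; norm_num
  obtain ⟨x, hx, ex⟩ := h1 1 m0
  obtain ⟨y, hy, ey⟩ := h1 1 m1
  have hxy : x ≠ y := by
    intro hxy
    rw [hxy] at ex
    rw [ex] at ey
    have := congrArg Complex.re ey
    simp at this
  have hd : 0 < ‖x - y‖ := norm_pos_iff.mpr (sub_ne_zero.mpr hxy)
  have hc : ∀ n, ‖c n‖ ≤ 8 / ‖x - y‖ := by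
    intro n
    rw [le_div_iff₀ hd, ← norm_mul]
    have e1 : c n * (x - y) = (b n + c n * x) - (b n + c n * y) := by ring
    rw [e1]
    have := norm_sub_le (b n + c n * x) (b n + c n * y)
    linarith [hbd n x hx, hbd n y hy]
  have hb : ∀ n, ‖b n‖ ≤ 4 + 8 / ‖x - y‖ * ‖x‖ := by
    intro n
    have e1 : b n = (b n + c n * x) - c n * x := by ring
    rw [e1]
    refine (norm_sub_le _ _).trans ?_
    rw [norm_mul]
    have h3 := mul_le_mul_of_nonneg_right (hc n) (norm_nonneg x)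
    linarith [hbd n x hx]
  have hmem : ∀ n, (b n, c n) ∈ Metric.closedBall (0 : ℂ × ℂ)
      (max (4 + 8 / ‖x - y‖ * ‖x‖) (8 / ‖x - y‖)) := by
    intro n
    rw [Metric.mem_closedBall, dist_zero_right, Prod.norm_def]
    exact max_le_max (hb n) (hc n)
  obtain ⟨⟨b0, c0⟩, -, φ, hφ, hlim⟩ := tendsto_subseq_of_bounded Metric.isBounded_closedBall hmem
  have hlb : Tendsto (fun n => b (φ n)) atTop (𝓝 b0) :=
    (continuous_fst.tendsto _).comp hlim
  have hlc : Tendsto (fun n => c (φ n)) atTop (𝓝 c0) :=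
    (continuous_snd.tendsto _).comp hlim
  have hφn : Tendsto φ atTop atTop := hφ.tendsto_atTop
  have hz : Tendsto (fun n : ℕ => 1 / ((n : ℝ) + 1)) atTop (𝓝 0) :=
    tendsto_one_div_add_atTop_nhds_zero_nat
  refine ⟨b0, c0, Set.Subset.antisymm ?_ ?_⟩
  · rintro _ ⟨k, hk, rfl⟩
    rw [mem_HexR]
    have l1 : Tendsto (fun n => NN (b (φ n) + c (φ n) * k)) atTop (𝓝 (NN (b0 + c0 * k))) :=
      (continuous_NN.tendsto _).comp (hlb.add (hlc.mul_const k))
    have l2 : Tendsto (fun n => 1 + 1 / ((φ n : ℝ) + 1)) atTop (𝓝 (1 + 0)) :=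
      (hz.comp hφn).const_add 1
    rw [add_zero] at l2
    refine le_of_tendsto_of_tendsto' l1 l2 ?_
    intro n
    exact mem_HexR.mp (h2 (φ n) ⟨k, hk, rfl⟩)
  · intro z hz1
    rw [mem_HexR] at hz1
    have hk : ∀ n : ℕ, ∃ k ∈ K, b n + c n * k = ((1 - 1 / ((n : ℝ) + 1) : ℝ) : ℂ) * z := by
      intro n
      have hm : ((1 - 1 / ((n : ℝ) + 1) : ℝ) : ℂ) * z ∈ HexR (1 - 1 / ((n : ℝ) + 1)) := by
        have h3 : 0 ≤ 1 - 1 / ((n : ℝ) + 1) := by linarith [hn1 n]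
        rw [mem_HexR, NN_real_mul h3]
        nlinarith
      obtain ⟨k, hk, ek⟩ := h1 n hm
      exact ⟨k, hk, ek⟩
    choose k hkK hke using hk
    obtain ⟨k0, hk0, ψ, hψ, hlk⟩ := hK.tendsto_subseq (fun n => hkK (φ n))
    refine ⟨k0, hk0, ?_⟩
    have hψn : Tendsto ψ atTop atTop := hψ.tendsto_atTop
    have l1 : Tendsto (fun n => b (φ (ψ n)) + c (φ (ψ n)) * k (φ (ψ n))) atTop
        (𝓝 (b0 + c0 * k0)) :=
      (hlb.comp hψn).add ((hlc.comp hψn).mul hlk)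
    have l2 : Tendsto (fun n => ((1 - 1 / ((φ (ψ n) : ℝ) + 1) : ℝ) : ℂ) * z) atTop
        (𝓝 (((1 - 0 : ℝ) : ℂ) * z)) := by
      refine Tendsto.mul_const z ?_
      refine (continuous_ofReal.tendsto _).comp ?_
      exact ((hz.comp hφn).comp hψn).const_sub 1
    have l3 : (fun n => b (φ (ψ n)) + c (φ (ψ n)) * k (φ (ψ n)))
        = fun n => ((1 - 1 / ((φ (ψ n) : ℝ) + 1) : ℝ) : ℂ) * z := by
      funext n; exact hke _
    rw [l3] at l1
    have := tendsto_nhds_unique l1 l2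
    simpa using this

end Pool.Agent.H60.GrunF
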