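import Pool.Agent.H60.GrunF.Gen

set_option autoImplicit false

/-! The boundary of the tile is nowhere polygonal. -/

namespace Pool.Agent.H60.GrunF

open Complex Pool.Agent.H60.Grun

/-- Every ball around a point of `S` contains a similar copy of `W` which lies in `S`. -/
def NP (S : Set ℂ) : Prop := ∀ z ∈ S, ∀ δ : ℝ, 0 < δ → ∃ b c : ℂ, c ≠ 0 ∧
  ((∀ x ∈ W, b + c * x ∈ S ∩ Metric.ball z δ) ∨
   (∀ x ∈ W, b + c * (starRingEnd ℂ) x ∈ S ∩ Metric.ball z δ))

theorem W_copies (n : ℕ) : ∀ z ∈ W, ∃ b c : ℂ, c ≠ 0 ∧ ‖c‖ ≤ r ^ n ∧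
    ((∃ x ∈ W, z = b + c * x ∧ ∀ y ∈ W, b + c * y ∈ W) ∨
     (∃ x ∈ W, z = b + c * (starRingEnd ℂ) x ∧ ∀ y ∈ W, b + c * (starRingEnd ℂ) y ∈ W)) := by
  induction n with
  | zero =>
    intro z hz
    refine ⟨0, 1, one_ne_zero, by simp, Or.inl ⟨z, hz, by ring, fun y hy => ?_⟩⟩
    rwa [zero_add, one_mul]
  | succ n ih =>
    intro z hz
    obtain ⟨i, v, hv, rfl⟩ := W_cases hz
    obtain ⟨b', c', hc, hcn, h⟩ := ih v hv
    have hn : ‖a i * (starRingEnd ℂ) c'‖ ≤ r ^ (n + 1) := by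
      rw [norm_mul, RCLike.norm_conj, pow_succ, mul_comm (r ^ n)]
      exact mul_le_mul (norm_a_le i) hcn (norm_nonneg _) r_pos.le
    have hne : a i * (starRingEnd ℂ) c' ≠ 0 :=
      mul_ne_zero (a_ne i) ((map_ne_zero _).2 hc)
    refine ⟨b i + a i * (starRingEnd ℂ) b', a i * (starRingEnd ℂ) c', hne, hn, ?_⟩
    rcases h with ⟨x, hx, e, hall⟩ | ⟨x, hx, e, hall⟩
    · right
      refine ⟨x, hx, ?_, fun y hy => ?_⟩
      · rw [e]; simp only [F, map_add, map_mul]; ring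
      · have := F_mem_W i (hall y hy)
        have e2 : F i (b' + c' * y) = b i + a i * (starRingEnd ℂ) b' +
            a i * (starRingEnd ℂ) c' * (starRingEnd ℂ) y := by
          simp only [F, map_add, map_mul]; ring
        rwa [e2] at this
    · left
      refine ⟨x, hx, ?_, fun y hy => ?_⟩
      · rw [e]; simp only [F, map_add, map_mul, conj_conj]; ring
      · have := F_mem_W i (hall y hy)
        have e2 : F i (b' + c' * (starRingEnd ℂ) y) = b i + a i * (starRingEnd ℂ) b' +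
            a i * (starRingEnd ℂ) c' * y := by
          simp only [F, map_add, map_mul, conj_conj]; ring
        rwa [e2] at this

theorem NP_W : NP W := by
  intro z hz δ hδ
  obtain ⟨D, hD⟩ := isCompact_W.isBounded.subset_closedBall (0 : ℂ)
  have hD' : ∀ x ∈ W, ‖x‖ ≤ D := by
    intro x hx
    have := hD hx
    rwa [Metric.mem_closedBall, dist_zero_right] at this
  have h1 : Filter.Tendsto (fun n : ℕ => r ^ n * (D + D)) Filter.atTop (nhds (0 * (D + D))) :=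
    (tendsto_pow_atTop_nhds_zero_of_lt_one r_pos.le (by linarith [r_lt])).mul_const _
  rw [zero_mul] at h1
  obtain ⟨n, hn⟩ := ((h1.eventually (gt_mem_nhds hδ))).exists
  obtain ⟨b, c, hc, hcn, h⟩ := W_copies n z hz
  refine ⟨b, c, hc, ?_⟩
  rcases h with ⟨x, hx, e, hall⟩ | ⟨x, hx, e, hall⟩
  · left
    intro y hy
    refine ⟨hall y hy, ?_⟩
    rw [Metric.mem_ball, dist_eq_norm, e]
    have e1 : b + c * y - (b + c * x) = c * (y - x) := by ring
    rw [e1, norm_mul]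
    refine lt_of_le_of_lt ?_ hn
    refine mul_le_mul hcn ((norm_sub_le _ _).trans (add_le_add (hD' y hy) (hD' x hx)))
      (norm_nonneg _) (by have := r_pos; positivity)
  · right
    intro y hy
    refine ⟨hall y hy, ?_⟩
    rw [Metric.mem_ball, dist_eq_norm, e]
    have e1 : b + c * (starRingEnd ℂ) y - (b + c * (starRingEnd ℂ) x) =
        c * (starRingEnd ℂ) (y - x) := by
      rw [map_sub]; ring
    rw [e1, norm_mul, RCLike.norm_conj]
    refine lt_of_le_of_lt ?_ hn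
    refine mul_le_mul hcn ((norm_sub_le _ _).trans (add_le_add (hD' y hy) (hD' x hx)))
      (norm_nonneg _) (by have := r_pos; positivity)

/-- The property is local. -/
theorem NP.of_cover {S : Set ℂ} (h : ∀ z ∈ S, ∃ S' : Set ℂ, S' ⊆ S ∧ z ∈ S' ∧ NP S') : NP S := by
  intro z hz δ hδ
  obtain ⟨S', hS, hz', h'⟩ := h z hz
  obtain ⟨b, c, hc, h1 | h1⟩ := h' z hz' δ hδ
  · exact ⟨b, c, hc, Or.inl fun x hx => ⟨hS (h1 x hx).1, (h1 x hx).2⟩⟩
  · exact ⟨b, c, hc, Or.inr fun x hx => ⟨hS (h1 x hx).1, (h1 x hx).2⟩⟩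

theorem NP.union {S S' : Set ℂ} (h : NP S) (h' : NP S') : NP (S ∪ S') := by
  apply NP.of_cover
  rintro z (hz | hz)
  · exact ⟨S, Set.subset_union_left, hz, h⟩
  · exact ⟨S', Set.subset_union_right, hz, h'⟩

theorem NP.image {S : Set ℂ} (h : NP S) (b : ℂ) {c : ℂ} (hc : c ≠ 0) :
    NP ((fun z => b + c * z) '' S) := by
  rintro _ ⟨z, hz, rfl⟩ δ hδ
  have hcn : 0 < ‖c‖ := norm_pos_iff.2 hc
  obtain ⟨b1, c1, hc1, h1⟩ := h z hz (δ / ‖c‖) (by positivity)
  have key : ∀ y ∈ S ∩ Metric.ball z (δ / ‖c‖), b + c * y ∈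
      (fun z => b + c * z) '' S ∩ Metric.ball (b + c * z) δ := by
    rintro y ⟨hy1, hy2⟩
    refine ⟨⟨y, hy1, rfl⟩, ?_⟩
    rw [Metric.mem_ball, dist_eq_norm] at hy2 ⊢
    have e1 : b + c * y - (b + c * z) = c * (y - z) := by ring
    rw [e1, norm_mul, mul_comm]
    exact (lt_div_iff₀ hcn).1 hy2
  refine ⟨b + c * b1, c * c1, mul_ne_zero hc hc1, ?_⟩
  rcases h1 with h1 | h1
  · left
    intro x hx
    have := key _ (h1 x hx)
    have e : b + c * (b1 + c1 * x) = b + c * b1 + c * c1 * x := by ring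
    rwa [e] at this
  · right
    intro x hx
    have := key _ (h1 x hx)
    have e : b + c * (b1 + c1 * (starRingEnd ℂ) x) = b + c * b1 + c * c1 * (starRingEnd ℂ) x := by
      ring
    rwa [e] at this

theorem NP.image_conj {S : Set ℂ} (h : NP S) (b : ℂ) {c : ℂ} (hc : c ≠ 0) :
    NP ((fun z => b + c * (starRingEnd ℂ) z) '' S) := by
  rintro _ ⟨z, hz, rfl⟩ δ hδ
  have hcn : 0 < ‖c‖ := norm_pos_iff.2 hc
  obtain ⟨b1, c1, hc1, h1⟩ := h z hz (δ / ‖c‖) (by positivity)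
  have key : ∀ y ∈ S ∩ Metric.ball z (δ / ‖c‖), b + c * (starRingEnd ℂ) y ∈
      (fun z => b + c * (starRingEnd ℂ) z) '' S ∩ Metric.ball (b + c * (starRingEnd ℂ) z) δ := by
    rintro y ⟨hy1, hy2⟩
    refine ⟨⟨y, hy1, rfl⟩, ?_⟩
    rw [Metric.mem_ball, dist_eq_norm] at hy2 ⊢
    have e1 : b + c * (starRingEnd ℂ) y - (b + c * (starRingEnd ℂ) z) =
        c * (starRingEnd ℂ) (y - z) := by rw [map_sub]; ring
    rw [e1, norm_mul, RCLike.norm_conj, mul_comm]
    exact (lt_div_iff₀ hcn).1 hy2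
  refine ⟨b + c * (starRingEnd ℂ) b1, c * (starRingEnd ℂ) c1,
    mul_ne_zero hc ((map_ne_zero _).2 hc1), ?_⟩
  rcases h1 with h1 | h1
  · right
    intro x hx
    have := key _ (h1 x hx)
    have e : b + c * (starRingEnd ℂ) (b1 + c1 * x) = b + c * (starRingEnd ℂ) b1 +
        c * (starRingEnd ℂ) c1 * (starRingEnd ℂ) x := by
      simp only [map_add, map_mul]; ring
    rwa [e] at this
  · left
    intro x hx
    have := key _ (h1 x hx)
    have e : b + c * (starRingEnd ℂ) (b1 + c1 * (starRingEnd ℂ) x) =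
        b + c * (starRingEnd ℂ) b1 + c * (starRingEnd ℂ) c1 * x := by
      simp only [map_add, map_mul, conj_conj]; ring
    rwa [e] at this

theorem Arc.NP_Ga (a : Arc) (h : NP a.V) : NP a.Ga := by
  apply NP.of_cover
  rintro z ⟨j, v, hv, hz | hz⟩
  · refine ⟨(fun z => w j * (om * om) + w j * z) '' a.V, ?_, ⟨v, hv, ?_⟩, h.image _ (w_ne j)⟩
    · rintro _ ⟨y, hy, rfl⟩
      exact ⟨j, y, hy, Or.inl (by simp only; ring)⟩
    · rw [hz]; simp only; ring
  · refine ⟨(fun z => w j * om + w j * z) '' a.V, ?_, ⟨v, hv, ?_⟩, h.image _ (w_ne j)⟩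
    · rintro _ ⟨y, hy, rfl⟩
      exact ⟨j, y, hy, Or.inr (by simp only; ring)⟩
    · rw [hz]; simp only; ring

theorem line_ne {α β x y : ℝ} (h : α ≠ 0 ∨ β ≠ 0) (hc : x ≠ 0 ∨ y ≠ 0) :
    α * x + β * y ≠ 0 ∨ β * x - α * y ≠ 0 := by
  by_contra hcon
  push Not at hcon
  obtain ⟨h1, h2⟩ := hcon
  have hq : 0 < x * x + y * y := by
    rcases hc with hc | hc
    · have := mul_self_pos.2 hc
      nlinarith [mul_self_nonneg y]
    · have := mul_self_pos.2 hc
      nlinarith [mul_self_nonneg x]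
  have h5 : α * (x * x + y * y) = 0 := by linear_combination x * h1 - y * h2
  have h6 : β * (x * x + y * y) = 0 := by linear_combination y * h1 + x * h2
  have h7 : α = 0 := (mul_eq_zero.mp h5).resolve_right hq.ne'
  have h8 : β = 0 := (mul_eq_zero.mp h6).resolve_right hq.ne'
  rcases h with h | h
  · exact h h7
  · exact h h8

theorem NP.not_lines {S : Set ℂ} (h : NP S) {z : ℂ} (hz : z ∈ S) {δ : ℝ} (hδ : 0 < δ)
    {κ : Type*} [Finite κ] (α β γ : κ → ℝ) (hne : ∀ i, α i ≠ 0 ∨ β i ≠ 0) :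
    ¬ (∀ w ∈ S ∩ Metric.ball z δ, ∃ i, α i * w.re + β i * w.im = γ i) := by
  intro hcov
  obtain ⟨b, c, hc, h1⟩ := h z hz δ hδ
  have hc' : c.re ≠ 0 ∨ c.im ≠ 0 := by
    by_contra hcon
    push Not at hcon
    exact hc (Complex.ext hcon.1 hcon.2)
  rcases h1 with h1 | h1
  · refine not_cover_lines (fun i => α i * c.re + β i * c.im) (fun i => β i * c.re - α i * c.im)
      (fun i => γ i - (α i * b.re + β i * b.im)) (fun i => line_ne (hne i) hc') ?_
    intro x hx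
    obtain ⟨i, hi⟩ := hcov _ (h1 x hx)
    refine ⟨i, ?_⟩
    rw [add_re, add_im, mul_re c x, mul_im c x] at hi
    linear_combination hi
  · refine not_cover_lines (fun i => α i * c.re + β i * c.im)
      (fun i => -(β i * c.re - α i * c.im)) (fun i => γ i - (α i * b.re + β i * b.im))
      (fun i => (line_ne (hne i) hc').imp id neg_ne_zero.2) ?_
    intro x hx
    obtain ⟨i, hi⟩ := hcov _ (h1 x hx)
    refine ⟨i, ?_⟩
    rw [add_re, add_im, mul_re c _, mul_im c _, conj_re, conj_im] at hi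
    linear_combination hi

/-- The frontier of a finite union of hulls of finite sets is covered by finitely many lines. -/
theorem frontier_iUnion_hull' {m : ℕ} (P : Fin m → Finset ℂ) :
    ∃ α β γ : ((i : Fin m) × (P i) × (P i)) → ℝ, (∀ i, α i ≠ 0 ∨ β i ≠ 0) ∧
      ∀ x ∈ frontier (⋃ i, convexHull ℝ (P i : Set ℂ)), ∃ i, α i * x.re + β i * x.im = γ i := by
  choose α β γ hne hline using fun i : (i : Fin m) × (P i) × (P i) =>
    exists_line (i.2.1 : ℂ) (i.2.2 : ℂ)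
  refine ⟨α, β, γ, hne, ?_⟩
  intro x hx
  have hcl : ∀ i, IsClosed (convexHull ℝ (P i : Set ℂ)) :=
    fun i => (P i).finite_toSet.isClosed_convexHull ℝ
  have hclU : IsClosed (⋃ i, convexHull ℝ (P i : Set ℂ)) := isClosed_iUnion_of_finite hcl
  rw [hclU.frontier_eq] at hx
  obtain ⟨h1, h2⟩ := hx
  obtain ⟨i, hi⟩ := Set.mem_iUnion.mp h1
  have h3 : x ∈ frontier (convexHull ℝ (P i : Set ℂ)) := by
    rw [(hcl i).frontier_eq]
    refine ⟨hi, fun hc => h2 ?_⟩
    exact interior_mono (Set.subset_iUnion (fun i => convexHull ℝ (P i : Set ℂ)) i) hc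
  obtain ⟨p, hp, q, hq, hseg⟩ := frontier_hull_subset (P i).finite_toSet h3
  exact ⟨⟨i, ⟨p, hp⟩, ⟨q, hq⟩⟩, hline ⟨i, ⟨p, hp⟩, ⟨q, hq⟩⟩ x hseg⟩

theorem Arc.T_ne_iUnion_hull (a : Arc) (h : NP a.V) (m : ℕ) (P : Fin m → Finset ℂ) :
    a.T ≠ ⋃ i, convexHull ℝ (P i : Set ℂ) := by
  intro hT
  obtain ⟨α, β, γ, hne, hcov⟩ := frontier_iUnion_hull' P
  rw [← hT, a.frontier_T] at hcov
  have hmem : w 0 * (om * om + a.J 0) ∈ a.Ga :=
    ⟨0, a.J 0, ⟨0, zero_mem_seg, rfl⟩, Or.inl rfl⟩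
  exact (a.NP_Ga h).not_lines hmem one_pos α β γ hne fun w hw => hcov w hw.1

end Pool.Agent.H60.GrunF
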