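import Pool.Agent.H60.GrunF.Close
import Pool.Agent.H60.GrunF.NP

set_option autoImplicit false

/-! A set whose boundary is not covered by countably many lines is not a regular hexagon. -/

namespace Pool.Agent.H60.GrunF

open Complex Pool.Agent.H60.Grun

/-- The six lines which carry the sides of the hexagon. -/
noncomputable def hα : Fin 6 → ℝ := ![1, 1, 1, 1, 0, 0]
/-- The six lines which carry the sides of the hexagon. -/
noncomputable def hβ : Fin 6 → ℝ := ![-(1 / s), -(1 / s), 1 / s, 1 / s, 2 / s, 2 / s]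
/-- The six lines which carry the sides of the hexagon. -/
noncomputable def hγ : Fin 6 → ℝ := ![1, -1, 1, -1, 1, -1]

lemma hne6 (i : Fin 6) : hα i ≠ 0 ∨ hβ i ≠ 0 := by
  have := s_ne
  fin_cases i
  · left; simp [hα]
  · left; simp [hα]
  · left; simp [hα]
  · left; simp [hα]
  · right; simpa [hβ] using this
  · right; simpa [hβ] using this

lemma frontier_Hex_line {z : ℂ} (hz : z ∈ frontier Hex) :
    ∃ i : Fin 6, hα i * z.re + hβ i * z.im = hγ i := by
  rw [isClosed_Hex.frontier_eq, interior_Hex] at hz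
  obtain ⟨⟨h1, h2, h3⟩, h4⟩ := hz
  have hor : |X z| = 1 ∨ |Y z| = 1 ∨ |Y z - X z| = 1 := by
    by_contra hc
    push Not at hc
    exact h4 ⟨lt_of_le_of_ne h1 hc.1, lt_of_le_of_ne h2 hc.2.1, lt_of_le_of_ne h3 hc.2.2⟩
  have eX : X z = z.re - z.im / s := rfl
  have eY : Y z = z.re + z.im / s := rfl
  rcases hor with h | h | h
  · rcases eq_or_eq_neg_of_abs_eq h with h | h
    · refine ⟨0, ?_⟩
      show 1 * z.re + -(1 / s) * z.im = 1
      rw [eX] at h; linear_combination h
    · refine ⟨1, ?_⟩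
      show 1 * z.re + -(1 / s) * z.im = -1
      rw [eX] at h; linear_combination h
  · rcases eq_or_eq_neg_of_abs_eq h with h | h
    · refine ⟨2, ?_⟩
      show 1 * z.re + 1 / s * z.im = 1
      rw [eY] at h; linear_combination h
    · refine ⟨3, ?_⟩
      show 1 * z.re + 1 / s * z.im = -1
      rw [eY] at h; linear_combination h
  · rcases eq_or_eq_neg_of_abs_eq h with h | h
    · refine ⟨4, ?_⟩
      show 0 * z.re + 2 / s * z.im = 1
      rw [eX, eY] at h; linear_combination h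
    · refine ⟨5, ?_⟩
      show 0 * z.re + 2 / s * z.im = -1
      rw [eX, eY] at h; linear_combination h

theorem not_hexagon_aux (T : Set ℂ) (hne : (frontier T).Nonempty)
    (hT : ∀ z ∈ frontier T, ∀ δ : ℝ, 0 < δ → ∀ α β γ : ℕ → ℝ, (∀ i, α i ≠ 0 ∨ β i ≠ 0) →
      ∃ w ∈ frontier T ∩ Metric.ball z δ, ∀ i, α i * w.re + β i * w.im ≠ γ i)
    (g : ℂ ≃ₜ ℂ) (α β γ : Fin 6 → ℝ) (h6 : ∀ i, α i ≠ 0 ∨ β i ≠ 0)
    (hg : ∀ w i, hα i * (g w).re + hβ i * (g w).im = hγ i → α i * w.re + β i * w.im = γ i) :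
    g '' T ≠ HexR 1 := by
  intro hcon
  have hH : g '' T = Hex := hcon
  obtain ⟨z, hz⟩ := hne
  obtain ⟨w, ⟨hw, -⟩, hall⟩ := hT z hz 1 one_pos (fun n => α (Fin.ofNat 6 n))
    (fun n => β (Fin.ofNat 6 n)) (fun n => γ (Fin.ofNat 6 n)) (fun n => h6 _)
  have h1 : g w ∈ frontier Hex := by
    rw [← hH, ← g.image_frontier]
    exact ⟨w, hw, rfl⟩
  obtain ⟨i, hi⟩ := frontier_Hex_line h1
  have h2 := hall i.val
  have e : Fin.ofNat 6 i.val = i := by
    apply Fin.ext
    exact Nat.mod_eq_of_lt i.isLt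
  simp only [e] at h2
  exact h2 (hg w i hi)

/-- A nonconstant similarity, orientation preserving. -/
noncomputable def simH (b c : ℂ) (hc : c ≠ 0) : ℂ ≃ₜ ℂ :=
  (Homeomorph.mulLeft₀ c hc).trans (Homeomorph.addLeft b)

lemma simH_apply (b c : ℂ) (hc : c ≠ 0) (z : ℂ) : simH b c hc z = b + c * z := rfl

lemma zero_mem_HexR_one : (0 : ℂ) ∈ HexR 1 := by
  refine ⟨?_, ?_, ?_⟩ <;> simp [X, Y]

lemma one_mem_HexR_one : (1 : ℂ) ∈ HexR 1 := by
  refine ⟨?_, ?_, ?_⟩ <;> simp [X, Y]

theorem not_hexagon (T : Set ℂ) (hne : (frontier T).Nonempty)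
    (hT : ∀ z ∈ frontier T, ∀ δ : ℝ, 0 < δ → ∀ α β γ : ℕ → ℝ, (∀ i, α i ≠ 0 ∨ β i ≠ 0) →
      ∃ w ∈ frontier T ∩ Metric.ball z δ, ∀ i, α i * w.re + β i * w.im ≠ γ i) (b c : ℂ) :
    (fun z => b + c * z) '' T ≠ HexR 1 ∧
      (fun z => b + c * (starRingEnd ℂ) z) '' T ≠ HexR 1 := by
  rcases eq_or_ne c 0 with rfl | hc
  · constructor
    · intro h
      have h0 := zero_mem_HexR_one
      have h1 := one_mem_HexR_one
      rw [← h] at h0 h1
      obtain ⟨x, -, hx⟩ := h0
      obtain ⟨y, -, hy⟩ := h1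
      simp only [zero_mul, add_zero] at hx hy
      exact zero_ne_one (hx.symm.trans hy)
    · intro h
      have h0 := zero_mem_HexR_one
      have h1 := one_mem_HexR_one
      rw [← h] at h0 h1
      obtain ⟨x, -, hx⟩ := h0
      obtain ⟨y, -, hy⟩ := h1
      simp only [zero_mul, add_zero] at hx hy
      exact zero_ne_one (hx.symm.trans hy)
  have hc' : c.re ≠ 0 ∨ c.im ≠ 0 := by
    by_contra hcon
    push Not at hcon
    exact hc (Complex.ext hcon.1 hcon.2)
  constructor
  · refine not_hexagon_aux T hne hT (simH b c hc)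
      (fun i => hα i * c.re + hβ i * c.im) (fun i => hβ i * c.re - hα i * c.im)
      (fun i => hγ i - (hα i * b.re + hβ i * b.im)) (fun i => line_ne (hne6 i) hc') ?_
    intro w i hi
    rw [simH_apply, add_re, add_im, mul_re c w, mul_im c w] at hi
    linear_combination hi
  · have e : (fun z => b + c * (starRingEnd ℂ) z) '' T =
        (Complex.conjCLE.toHomeomorph.trans (simH b c hc)) '' T := rfl
    rw [e]
    refine not_hexagon_aux T hne hT _
      (fun i => hα i * c.re + hβ i * c.im) (fun i => -(hβ i * c.re - hα i * c.im))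
      (fun i => hγ i - (hα i * b.re + hβ i * b.im))
      (fun i => (line_ne (hne6 i) hc').imp id neg_ne_zero.2) ?_
    intro w i hi
    have e2 : (Complex.conjCLE.toHomeomorph.trans (simH b c hc)) w =
        b + c * (starRingEnd ℂ) w := rfl
    rw [e2, add_re, add_im, mul_re c _, mul_im c _, conj_re, conj_im] at hi
    linear_combination hi

end Pool.Agent.H60.GrunF
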