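import Pool.Agent.H60.GrunF.Final
import Pool.Agent.H60.GrunF.Limit
import Pool.Agent.H60.GrunF.NotHex

set_option autoImplicit false

/-! Infinitely many pairwise non-similar tiles. -/

namespace Pool.Agent.H60.GrunF

open Complex Pool.Agent.H60.Grun Filter Topology

/-- The properties of the tiles. -/
def Good (T : Set ℂ) : Prop :=
    Nonempty (T ≃ₜ Metric.closedBall (0 : ℂ) 1) ∧
    (fun z : ℂ => Complex.exp (((Real.pi / 3 : ℝ) : ℂ) * Complex.I) * z) '' T = T ∧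
    (∃ c : ℂ, ‖c‖ = 1 ∧ (fun z : ℂ => c * (starRingEnd ℂ) z) '' T = T) ∧
    (⋃ p : ℤ × ℤ, (fun z => z + hv p) '' T) = Set.univ ∧
    (Pairwise fun p p' : ℤ × ℤ =>
      Disjoint (interior ((fun z => z + hv p) '' T)) (interior ((fun z => z + hv p') '' T))) ∧
    (∀ z ∈ frontier T, ∀ δ : ℝ, 0 < δ → ∀ α β γ : ℕ → ℝ, (∀ i, α i ≠ 0 ∨ β i ≠ 0) →
      ∃ w ∈ frontier T ∩ Metric.ball z δ, ∀ i, α i * w.re + β i * w.im ≠ γ i) ∧
    ∀ P : ℕ → Finset ℂ, T ≠ ⋃ i, convexHull ℝ (P i : Set ℂ)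

/-- Closeness to the regular hexagon. -/
def Btw (T : Set ℂ) (n : ℕ) : Prop :=
  HexR (1 - 1 / ((n : ℝ) + 1)) ⊆ T ∧ T ⊆ HexR (1 + 1 / ((n : ℝ) + 1))

/-- Similarity of plane sets. -/
def Sim (S S' : Set ℂ) : Prop := ∃ b c : ℂ, c ≠ 0 ∧
  (S' = (fun z => b + c * z) '' S ∨ S' = (fun z => b + c * (starRingEnd ℂ) z) '' S)

lemma HexR_mono {ρ ρ' : ℝ} (h : ρ ≤ ρ') : HexR ρ ⊆ HexR ρ' :=
  fun _ hz => ⟨hz.1.trans h, hz.2.1.trans h, hz.2.2.trans h⟩

lemma Btw.mono {T : Set ℂ} {m n : ℕ} (h : Btw T n) (hmn : m ≤ n) : Btw T m := by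
  have h1 : 1 / ((n : ℝ) + 1) ≤ 1 / ((m : ℝ) + 1) := by
    have : (m : ℝ) ≤ n := by exact_mod_cast hmn
    apply one_div_le_one_div_of_le (by positivity) (by linarith)
  exact ⟨(HexR_mono (by linarith)).trans h.1, h.2.trans (HexR_mono (by linarith))⟩

lemma Good.isCompact {T : Set ℂ} (h : Good T) : IsCompact T := by
  obtain ⟨⟨e⟩, -⟩ := h
  have : CompactSpace (Metric.closedBall (0 : ℂ) 1) :=
    isCompact_iff_compactSpace.mp (isCompact_closedBall 0 1)
  have := e.symm.compactSpace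
  exact isCompact_iff_compactSpace.mpr this

lemma Good.frontier_nonempty {T : Set ℂ} (h : Good T) : (frontier T).Nonempty := by
  have hc := h.isCompact
  rw [nonempty_frontier_iff]
  constructor
  · obtain ⟨⟨e⟩, -⟩ := h
    exact ⟨_, (e.symm ⟨0, by simp⟩).2⟩
  · intro hu
    rw [hu] at hc
    exact noncompact_univ ℂ hc

lemma Good.far {T : Set ℂ} (h : Good T) : ∃ n : ℕ, ∀ T', Btw T' n → ¬ Sim T T' := by
  have hN := not_hexagon T h.frontier_nonempty h.2.2.2.2.2.1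
  have hA : ∃ n : ℕ, ∀ b c : ℂ, ¬ Btw ((fun z => b + c * z) '' T) n := by
    by_contra hcon
    push Not at hcon
    obtain ⟨b, c, hbc⟩ := limit_hex h.isCompact hcon
    exact (hN b c).1 hbc
  have hB : ∃ n : ℕ, ∀ b c : ℂ, ¬ Btw ((fun z => b + c * (starRingEnd ℂ) z) '' T) n := by
    by_contra hcon
    push Not at hcon
    have e1 : ∀ b c : ℂ, (fun z => b + c * z) '' ((starRingEnd ℂ) '' T)
        = (fun z => b + c * (starRingEnd ℂ) z) '' T := by
      intro b c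
      rw [Set.image_image]
    have hK : IsCompact ((starRingEnd ℂ) '' T) := h.isCompact.image Complex.continuous_conj
    obtain ⟨b, c, hbc⟩ := limit_hex hK (fun n => by
      obtain ⟨b, c, hbc⟩ := hcon n
      refine ⟨b, c, ?_⟩
      rw [e1]
      exact hbc)
    rw [e1] at hbc
    exact (hN b c).2 hbc
  obtain ⟨n1, hn1⟩ := hA
  obtain ⟨n2, hn2⟩ := hB
  refine ⟨max n1 n2, ?_⟩
  rintro T' hT' ⟨b, c, -, hs | hs⟩
  · rw [hs] at hT'
    exact hn1 b c (hT'.mono (le_max_left _ _))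
  · rw [hs] at hT'
    exact hn2 b c (hT'.mono (le_max_right _ _))

lemma Sim.symm {S S' : Set ℂ} (h : Sim S S') : Sim S' S := by
  obtain ⟨b, c, hc, h | h⟩ := h
  · refine ⟨-(b / c), 1 / c, one_div_ne_zero hc, Or.inl ?_⟩
    rw [h, Set.image_image]
    have : ∀ z, -(b / c) + 1 / c * (b + c * z) = z := by intro z; field_simp; ring
    simp only [this, Set.image_id']
  · refine ⟨-(starRingEnd ℂ) (b / c), (starRingEnd ℂ) (1 / c), ?_, Or.inr ?_⟩
    · rw [Ne, map_eq_zero]; exact one_div_ne_zero hc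
    rw [h, Set.image_image]
    have : ∀ z, -(starRingEnd ℂ) (b / c)
        + (starRingEnd ℂ) (1 / c) * (starRingEnd ℂ) (b + c * (starRingEnd ℂ) z) = z := by
      intro z
      rw [← map_mul, ← map_neg, ← map_add]
      have e1 : -(b / c) + 1 / c * (b + c * (starRingEnd ℂ) z) = (starRingEnd ℂ) z := by
        field_simp; ring
      rw [e1, conj_conj]
    simp only [this, Set.image_id']

theorem exists_good (n : ℕ) : ∃ T, Good T ∧ Btw T n := by
  obtain ⟨T, h1, h2, h3, h4, h5, h6, h7, h8, h9⟩ := main (1 / ((n : ℝ) + 1)) (by positivity)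
  exact ⟨T, ⟨h1, h2, h3, h4, h5, h8, h9⟩, h6, h7⟩

theorem many : ∃ T : ℕ → Set ℂ, (∀ n, Good (T n) ∧ Btw (T n) n) ∧
    Pairwise fun m n => ¬ Sim (T m) (T n) := by
  obtain ⟨f, hf1, hf2⟩ := exists_seq_of_forall_finset_exists
    (fun x : Set ℂ × ℕ => Good x.1 ∧ Btw x.1 x.2)
    (fun x y => x.2 < y.2 ∧ ¬ Sim x.1 y.1) (by
      intro s hs
      choose! n0 hn0 using fun (x : Set ℂ × ℕ) (hx : Good x.1) => hx.far
      let k := s.sup (fun x => max (n0 x) x.2) + 1
      obtain ⟨T, hT1, hT2⟩ := exists_good k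
      refine ⟨(T, k), ⟨hT1, hT2⟩, ?_⟩
      intro x hx
      have h1 : max (n0 x) x.2 ≤ s.sup (fun x => max (n0 x) x.2) :=
        Finset.le_sup (f := fun x => max (n0 x) x.2) hx
      constructor
      · show x.2 < s.sup (fun x => max (n0 x) x.2) + 1
        have := le_max_right (n0 x) x.2
        omega
      · apply hn0 x (hs x hx).1
        apply hT2.mono
        show n0 x ≤ s.sup (fun x => max (n0 x) x.2) + 1
        have := le_max_left (n0 x) x.2
        omega)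
  have hk : ∀ n, n ≤ (f n).2 := by
    intro n
    induction n with
    | zero => exact Nat.zero_le _
    | succ n ih =>
      have := (hf2 n (n + 1) (Nat.lt_succ_self n)).1
      omega
  refine ⟨fun n => (f n).1, fun n => ⟨(hf1 n).1, (hf1 n).2.mono (hk n)⟩, ?_⟩
  intro m n hmn hs
  rcases lt_or_gt_of_ne hmn with h | h
  · exact (hf2 m n h).2 hs
  · exact (hf2 n m h).2 hs.symm

end Pool.Agent.H60.GrunF
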