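import Pool.Agent.H60.GrunF.Step2

set_option autoImplicit false

/-! The sequence of arcs: algebra, invariants, the reflection symmetry and the height. -/

namespace Pool.Agent.H60.GrunF

open Complex Pool.Agent.H60.Grun

/-- `exp (i π / 6)` -/
noncomputable def ub : ℂ := ⟨s / 2, 1 / 2⟩

/-- The end point of the arc before normalisation. -/
noncomputable def DD (L : ℝ) : ℂ := 1 + (L : ℂ) * ub

/-- The parameter. -/
noncomputable def pp (L : ℝ) : ℂ := (DD L)⁻¹

lemma DD_re (L : ℝ) : (DD L).re = 1 + L * (s / 2) := by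
  unfold DD ub; rw [add_re, one_re, re_ofReal_mul]

lemma DD_im (L : ℝ) : (DD L).im = L / 2 := by
  unfold DD ub; rw [add_im, one_im, im_ofReal_mul]; ring

lemma normSq_DD (L : ℝ) : normSq (DD L) = 1 + s * L + L * L := by
  rw [normSq_apply, DD_re, DD_im]
  linear_combination (L * L / 4) * s_sq

lemma normSq_DD_pos {L : ℝ} (hL : 0 ≤ L) : 0 < normSq (DD L) := by
  rw [normSq_DD]
  have := s_pos
  positivity

lemma DD_ne {L : ℝ} (hL : 0 ≤ L) : DD L ≠ 0 := by
  intro h
  have := normSq_DD_pos hL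
  rw [h, map_zero] at this
  exact lt_irrefl _ this

lemma pp_ne {L : ℝ} (hL : 0 ≤ L) : pp L ≠ 0 := inv_ne_zero (DD_ne hL)

lemma pp_mul {L : ℝ} (hL : 0 ≤ L) : pp L * DD L = 1 := inv_mul_cancel₀ (DD_ne hL)

lemma pp_mul_conj {L : ℝ} (hL : 0 ≤ L) : (starRingEnd ℂ) (pp L) * (starRingEnd ℂ) (DD L) = 1 := by
  rw [← map_mul, pp_mul hL, map_one]

lemma DD_rel (L : ℝ) : 1 + om * (starRingEnd ℂ) (DD L) + om * om * DD L = 0 := by
  have hss := s_sq
  apply Complex.ext
  · simp only [add_re, mul_re, mul_im, one_re, conj_re, conj_im, DD_re, DD_im, om, zero_re]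
    linear_combination (-1 / 4 - 1 / 8 * s * L) * hss
  · simp only [add_im, mul_re, mul_im, one_im, conj_re, conj_im, DD_re, DD_im, om, zero_im]
    linear_combination (-1 / 8 * L) * hss

lemma DD_step (L : ℝ) : DD (L + s) - 2 = -(om * om * (starRingEnd ℂ) (DD L)) := by
  have hss := s_sq
  apply Complex.ext
  · simp only [neg_re, sub_re, mul_re, mul_im, conj_re, conj_im, DD_re, DD_im, om, re_ofNat]
    linear_combination (1 / 4 - 1 / 8 * s * L) * hss
  · simp only [neg_im, sub_im, mul_re, mul_im, conj_re, conj_im, DD_re, DD_im, om, im_ofNat]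
    linear_combination (-1 / 8 * L) * hss

lemma rel {L : ℝ} (hL : 0 ≤ L) : pp L * (starRingEnd ℂ) (pp L) + om * pp L
    + om * om * (starRingEnd ℂ) (pp L) = 0 := by
  have h1 := DD_rel L
  have h2 := pp_mul hL
  have h3 := pp_mul_conj hL
  linear_combination (pp L * (starRingEnd ℂ) (pp L)) * h1 - (om * pp L) * h3
    - (om * om * (starRingEnd ℂ) (pp L)) * h2

lemma star {L : ℝ} (hL : 0 ≤ L) : (1 - 2 * pp (L + s)) * (starRingEnd ℂ) (pp L)
    = -(om * om * pp (L + s)) := by
  have h1 := DD_step L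
  have h2 := pp_mul (L := L + s) (by linarith [s_pos])
  have h3 := pp_mul_conj hL
  linear_combination (pp (L + s) * (starRingEnd ℂ) (pp L)) * h1
    - (starRingEnd ℂ) (pp L) * h2 - (om * om * pp (L + s)) * h3

lemma star' {L : ℝ} (hL : 0 ≤ L) : (1 - 2 * (starRingEnd ℂ) (pp (L + s))) * pp L
    = -(om * (starRingEnd ℂ) (pp (L + s))) := by
  have h := congrArg (starRingEnd ℂ) (star hL)
  simp only [map_mul, map_sub, map_neg, map_one, conj_conj, conj_om, map_ofNat] at h
  linear_combination h - (om * (starRingEnd ℂ) (pp (L + s))) * om_cube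

lemma par {L : ℝ} (hL : s + r ≤ L) : Par (pp L) := by
  have hs := s_pos
  have hr := r_pos
  have hrr := r_eq
  have hL0 : 0 < L := by linarith
  have hN := normSq_DD_pos hL0.le
  have e1 : (pp L).re = (1 + L * (s / 2)) / normSq (DD L) := by
    unfold pp; rw [inv_re, DD_re]
  have e2 : (pp L).im = -(L / 2) / normSq (DD L) := by
    unfold pp; rw [inv_im, DD_im]
  have hNe := normSq_DD L
  set N := normSq (DD L)
  refine ⟨?_, ?_, ?_⟩
  · rw [e2]; apply div_neg_of_neg_of_pos _ hN; linarith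
  · rw [e1, e2]; field_simp
    rw [hNe]
    linear_combination (L * L) * s_sq
  · rw [e1, e2]
    have e3 : -(2 * s * (-(L / 2) / N)) = s * L / N := by ring
    have e4 : 1 - 2 * ((1 + L * (s / 2)) / N) = (N - 2 - L * s) / N := by
      field_simp; ring
    rw [e3, e4]
    apply div_le_div_of_nonneg_right _ hN.le
    rw [hNe]
    nlinarith

/-! ### the invariants -/

/-- The state of the recursion. -/
structure St (a : Arc) (L : ℝ) (B : Set ℂ) : Prop where
  pos : r ≤ L
  cV : ∀ v, v ∈ a.V ↔ (∃ x ∈ W, v = pp L * (starRingEnd ℂ) x) ∨ (∃ b ∈ B, v = 1 - b)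
  mir : ∀ b ∈ B, ∃ b' ∈ B, (starRingEnd ℂ) (pp L) * b'
    = (starRingEnd ℂ) (pp L) * (1 - pp L) + om * om * pp L * (starRingEnd ℂ) b
  hgt : ∀ v ∈ a.V, -(13 / 2) ≤ ((starRingEnd ℂ) ub * (DD L * v)).im ∧
    ((starRingEnd ℂ) ub * (DD L * v)).im ≤ 6

/-! ### the first arc -/

lemma conj_Rh {z : ℂ} (h : z ∈ Rh) : (starRingEnd ℂ) z ∈ Rh := by
  obtain ⟨h1, h2, h3, h4⟩ := h
  unfold n1 at h1; unfold n2 at h2; unfold n3 at h3; unfold n4 at h4
  refine ⟨?_, ?_, ?_, ?_⟩
  · unfold n1; rw [conj_re, conj_im]; linarith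
  · unfold n2; rw [conj_re, conj_im]; linarith
  · unfold n3; rw [conj_re, conj_im]; linarith
  · unfold n4; rw [conj_re, conj_im]; linarith

lemma conj_seg {z : ℂ} (h : z ∈ seg) : (starRingEnd ℂ) z = z := by
  obtain ⟨t, -, rfl⟩ := h
  exact conj_ofReal t

lemma a0_image (z : ℂ) : z ∈ (cj.trans (J0.trans cj)) '' seg ↔ (starRingEnd ℂ) z ∈ V0 := by
  constructor
  · rintro ⟨x, hx, rfl⟩
    refine ⟨x, hx, ?_⟩
    show J0 x = (starRingEnd ℂ) ((starRingEnd ℂ) (J0 ((starRingEnd ℂ) x)))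
    rw [conj_conj, conj_seg hx]
  · rintro ⟨x, hx, h⟩
    refine ⟨x, hx, ?_⟩
    show (starRingEnd ℂ) (J0 ((starRingEnd ℂ) x)) = z
    rw [conj_seg hx, h, conj_conj]

/-- The first arc. -/
noncomputable def a0 : Arc where
  J := cj.trans (J0.trans cj)
  out := by
    intro z hz
    show (starRingEnd ℂ) (J0 ((starRingEnd ℂ) z)) = z
    rw [J0_of_not_mem, conj_conj]
    intro hc
    apply hz
    have := conj_Rh hc
    rwa [conj_conj] at this
  sym := by
    intro z hz
    rw [a0_image] at *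
    have := V0_symm hz
    rwa [map_sub, map_one]

lemma mem_a0 (z : ℂ) : z ∈ a0.V ↔ (starRingEnd ℂ) z ∈ V0 := a0_image z

lemma DD_r : DD r = (starRingEnd ℂ) e := by
  apply Complex.ext
  · rw [DD_re, conj_re]; simp [e]; ring
  · rw [DD_im, conj_im]; simp [e]

lemma norm_le_of_Rc {z : ℂ} (h : z ∈ Rc) : ‖z‖ ≤ 2 := by
  have hcl : IsClosed {z : ℂ | ‖z‖ ≤ 2} := isClosed_le continuous_norm continuous_const
  apply closure_minimal _ hcl h
  intro z hz
  have hx0 := re_pos_of_R hz
  have hx1 := re_lt_of_R hz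
  obtain ⟨-, -, h3, h4, -⟩ := hz
  unfold lc at h3; unfold ld at h4
  have hs := s_pos
  have hsl := s_lt
  have hrl := r_lt
  have := Complex.norm_le_abs_re_add_abs_im z
  have a1 : |z.re| ≤ 1 := by rw [abs_le]; constructor <;> linarith
  have a2 : |z.im| ≤ 1 := by rw [abs_le]; constructor <;> nlinarith
  show ‖z‖ ≤ 2
  linarith

lemma norm_ub : ‖ub‖ = 1 := by
  have h : normSq ub = 1 := by
    rw [normSq_apply]; unfold ub; simp only
    linear_combination (1 / 4) * s_sq
  rw [normSq_eq_norm_sq] at h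
  have := norm_nonneg ub
  nlinarith [sq_nonneg (‖ub‖ - 1)]

lemma im_ub_le (z : ℂ) : |((starRingEnd ℂ) ub * z).im| ≤ ‖z‖ := by
  refine (abs_im_le_norm _).trans ?_
  rw [norm_mul, RCLike.norm_conj, norm_ub, one_mul]

lemma im_ub_W {x : ℂ} (h : x ∈ W) : |((starRingEnd ℂ) ub * (starRingEnd ℂ) x).im| ≤ 2 := by
  refine (im_ub_le _).trans ?_
  rw [RCLike.norm_conj]
  exact norm_le_of_Rc (W_subset_Rc h)

lemma norm_V (a : Arc) {v : ℂ} (h : v ∈ a.V) : ‖v‖ ≤ 3 := by
  have hcl : IsClosed {z : ℂ | ‖z‖ ≤ 3} := isClosed_le continuous_norm continuous_const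
  exact closure_minimal (fun z hz => Rh_bounded hz) hcl (a.V_subset h)

lemma st0 : St a0 r ((fun z => (1 - pp r) * z) '' W) := by
  have hr := r_pos
  have hpD := pp_mul hr.le
  have hpq : pp r = (starRingEnd ℂ) q := by
    unfold pp
    rw [DD_r, ← map_inv₀, inv_eq_of_mul_eq_one_right e_mul_q]
  have hrel := rel hr.le
  refine ⟨_root_.le_refl r, ?_, ?_, ?_⟩
  · intro v
    rw [mem_a0, mem_V0_iff]
    have hD : (starRingEnd ℂ) (e * (starRingEnd ℂ) v) = DD r * v := by
      rw [map_mul, conj_conj, DD_r]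
    have hA : DD r = 1 + (starRingEnd ℂ) A := by
      rw [DD_r]; unfold e; rw [map_add, map_one]
    constructor
    · rintro (h | ⟨x, hx, h⟩)
      · left
        refine ⟨_, h, ?_⟩
        rw [hD]; linear_combination (-v) * hpD
      · right
        refine ⟨(1 - pp r) * rho x, ⟨rho x, rho_mem_W hx, rfl⟩, ?_⟩
        have h2 : DD r * v = 1 + (starRingEnd ℂ) A * (starRingEnd ℂ) x := by
          rw [← hD, ← h, map_add, map_one, map_mul]
        unfold rho
        rw [hA] at h2 hpD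
        linear_combination (pp r) * h2 - (v - (starRingEnd ℂ) x) * hpD
    · rintro (⟨x, hx, rfl⟩ | ⟨_, ⟨x, hx, rfl⟩, rfl⟩)
      · left
        have : e * (starRingEnd ℂ) (pp r * (starRingEnd ℂ) x) = x := by
          rw [hpq, map_mul, conj_conj, conj_conj, ← mul_assoc, e_mul_q, one_mul]
        rwa [this]
      · right
        refine ⟨rho x, rho_mem_W hx, ?_⟩
        simp only [rho, map_sub, map_mul, map_one]
        rw [hpq, conj_conj]
        have h2 := e_mul_q
        unfold e at *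
        linear_combination (-((starRingEnd ℂ) x)) * h2
  · rintro _ ⟨x, hx, rfl⟩
    refine ⟨(1 - pp r) * rho x, ⟨rho x, rho_mem_W hx, rfl⟩, ?_⟩
    simp only [rho, map_sub, map_mul, map_one]
    linear_combination ((starRingEnd ℂ) x * (1 + om * om)) * hrel
      - ((starRingEnd ℂ) x * (om * pp r + (starRingEnd ℂ) (pp r))) * om_sum
      - ((starRingEnd ℂ) x * (om * (starRingEnd ℂ) (pp r))) * om_cube
  · intro v hv
    have h1 := im_ub_le (DD r * v)
    have h2 : ‖DD r * v‖ ≤ 6 := by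
      rw [norm_mul, DD_r, RCLike.norm_conj]
      have h3 : ‖e‖ ≤ 2 := by
        unfold e
        refine (norm_add_le _ _).trans ?_
        rw [norm_one, norm_A]
        linarith [r_lt]
      have h4 := norm_V a0 hv
      nlinarith [norm_nonneg e, norm_nonneg v]
    have h3 := abs_le.mp (h1.trans h2)
    constructor <;> linarith [h3.1, h3.2]

end Pool.Agent.H60.GrunF
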