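import Pool.Agent.H60.GrunF.Gen

set_option autoImplicit false

/-! The recursion step: from an arc and a parameter `p` a new arc which consists of `p * conj W`,
a copy of the old arc from `p` to `1 - p`, and the point reflection of `p * conj W`. -/

namespace Pool.Agent.H60.GrunF

open Complex Pool.Agent.H60.Grun

/-- Admissible parameters. -/
structure Par (p : ℂ) : Prop where
  im_neg : p.im < 0
  rel : p.re * p.re + p.im * p.im - s * p.im = p.re
  ineq : -(2 * s * p.im) ≤ 1 - 2 * p.re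

section

variable {p : ℂ} (hp : Par p)

include hp

lemma Par.re_pos : 0 < p.re := by
  have h1 := hp.im_neg
  have h2 := hp.rel
  have hs := s_pos
  nlinarith [mul_self_nonneg p.re, mul_self_nonneg p.im, mul_pos hs (neg_pos.mpr h1)]

lemma Par.slope : -(s * p.im) < p.re := by
  have h2 := hp.rel
  have h3 := hp.re_pos
  nlinarith [mul_pos h3 h3, mul_self_nonneg p.im]

lemma Par.re_lt : p.re < 1 / 2 := by
  have h1 := hp.im_neg
  have h2 := hp.ineq
  have hs := s_pos
  nlinarith [mul_pos hs (neg_pos.mpr h1)]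

lemma Par.ne : p ≠ 0 := by
  intro h
  have := hp.im_neg
  rw [h] at this
  simp at this

lemma Par.ne' : 1 - 2 * p ≠ 0 := by
  intro h
  have h1 := congrArg Complex.re h
  have := hp.re_lt
  simp at h1
  linarith

end

/-! ### the point reflection -/

/-- `z ↦ 1 - z` -/
noncomputable def cc : ℂ ≃ₜ ℂ := Homeomorph.subLeft 1

lemma cc_apply (z : ℂ) : cc z = 1 - z := rfl

lemma cc_symm_apply (z : ℂ) : cc.symm z = 1 - z := by
  rw [Homeomorph.symm_apply_eq, cc_apply]; ring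

lemma Rh_symm {z : ℂ} (h : z ∈ Rh) : 1 - z ∈ Rh := by
  obtain ⟨h1, h2, h3, h4⟩ := h
  unfold n1 at h1; unfold n2 at h2; unfold n3 at h3; unfold n4 at h4
  refine ⟨?_, ?_, ?_, ?_⟩
  · unfold n1; rw [sub_re, sub_im, one_re, one_im]; linarith
  · unfold n2; rw [sub_re, sub_im, one_re, one_im]; linarith
  · unfold n3; rw [sub_re, sub_im, one_re, one_im]; linarith
  · unfold n4; rw [sub_re, sub_im, one_re, one_im]; linarith

/-- conjugation by the point reflection -/
noncomputable def flip (g : ℂ ≃ₜ ℂ) : ℂ ≃ₜ ℂ := cc.trans (g.trans cc)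

lemma flip_apply (g : ℂ ≃ₜ ℂ) (z : ℂ) : flip g z = 1 - g (1 - z) := rfl

/-! ### the shear -/

noncomputable def cA (p : ℂ) : ℝ := -p.im / (s * p.re)
noncomputable def cB (p : ℂ) : ℝ := -p.im / (1 / 2 - p.re)

section

variable {p : ℂ} (hp : Par p)

include hp

lemma cA_bd : 0 < cA p ∧ cA p ≤ 1 / 3 := by
  have h1 := hp.im_neg
  have h2 := hp.re_pos
  have h3 := hp.slope
  have hs := s_pos
  have hss := s_sq
  unfold cA
  refine ⟨div_pos (by linarith) (by positivity), ?_⟩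
  rw [div_le_iff₀ (by positivity)]
  nlinarith

lemma cB_bd : 0 < cB p ∧ cB p ≤ 1 := by
  have h1 := hp.im_neg
  have h2 := hp.re_lt
  have h3 := hp.ineq
  have hs := s_gt
  unfold cB
  have h4 : 0 < 1 / 2 - p.re := by linarith
  refine ⟨div_pos (by linarith) h4, ?_⟩
  rw [div_le_iff₀ h4]
  nlinarith

end

/-- The tent function of the left half. -/
noncomputable def kL (p z : ℂ) : ℝ :=
  max 0 (min (min (cA p * n1 z) (cA p * n2 z))
    (min (cB p * (1 / 2 - z.re)) (cB p * (1 / 2 - z.re))))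

lemma kL_nonneg (p z : ℂ) : 0 ≤ kL p z := le_max_left _ _

lemma kL_eq_zero_of_re (p : ℂ) (hp : Par p) {z : ℂ} (h : 1 / 2 ≤ z.re) : kL p z = 0 := by
  obtain ⟨p2, b2⟩ := cB_bd hp
  unfold kL
  apply max_eq_left
  have h1 : cB p * (1 / 2 - z.re) ≤ 0 := by nlinarith
  exact (min_le_right _ _).trans ((min_le_left _ _).trans h1)

lemma kL_eq_zero (p : ℂ) (hp : Par p) {z : ℂ} (h : z ∉ Rh) : kL p z = 0 := by
  obtain ⟨p1, b1⟩ := cA_bd hp
  obtain ⟨p2, b2⟩ := cB_bd hp
  have hs := s_pos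
  unfold kL
  apply max_eq_left
  by_contra hc
  push Not at hc
  apply h
  simp only [lt_min_iff] at hc
  have h1 := pos_of_mul_pos_right hc.1.1 p1.le
  have h2 := pos_of_mul_pos_right hc.1.2 p1.le
  have h3 := pos_of_mul_pos_right hc.2.1 p2.le
  refine ⟨h1, h2, ?_, ?_⟩
  · unfold n1 at h1; unfold n3; nlinarith
  · unfold n2 at h2; unfold n4; nlinarith

lemma kL_le_add (p : ℂ) (hp : Par p) (z w : ℂ) : kL p z ≤ kL p w + ‖z - w‖ := by
  have hss := s_sq
  obtain ⟨p1, b1⟩ := cA_bd hp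
  obtain ⟨p2, b2⟩ := cB_bd hp
  have h1 : ∀ α β : ℝ, α ^ 2 + β ^ 2 ≤ 1 →
      α * z.re + β * z.im ≤ α * w.re + β * w.im + ‖z - w‖ := by
    intro α β h
    have := (le_abs_self _).trans (lin_le α β h (z - w))
    simp at this
    linarith
  unfold kL
  have h3 : cB p * (1 / 2 - z.re) ≤ cB p * (1 / 2 - w.re) + ‖z - w‖ := by
    have := h1 (-(cB p)) 0 (by nlinarith)
    linarith
  apply tent4_le (norm_nonneg _) _ _ h3 h3
  · have := h1 (cA p * s) (cA p) (by nlinarith)
    unfold n1; linarith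
  · have := h1 (cA p * s) (-(cA p)) (by nlinarith)
    unfold n2; linarith

lemma kL_mono (p : ℂ) (hp : Par p) (x y y' : ℝ) (h : y' ≤ y) :
    kL p ⟨x, y⟩ ≤ kL p ⟨x, y'⟩ + (1 / 2) * (y - y') := by
  obtain ⟨p1, b1⟩ := cA_bd hp
  unfold kL
  apply tent4_le (by linarith)
  · unfold n1; simp only; nlinarith
  · unfold n2; simp only; nlinarith
  · simp only; linarith
  · simp only; linarith

lemma exists_SL (p : ℂ) (hp : Par p) : ∃ g : ℂ ≃ₜ ℂ, ∀ z, g z = shear (fun z => -kL p z) z := by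
  apply shear_homeo (fun z => -kL p z) 1 zero_le_one
  · intro z w
    have h1 := kL_le_add p hp z w
    have h2 := kL_le_add p hp w z
    rw [norm_sub_rev] at h2
    rw [one_mul, abs_le]
    constructor <;> linarith
  · intro x y y' h
    have := kL_mono p hp x y y' h
    linarith

/-- The left shear. -/
noncomputable def SL (p : ℂ) (hp : Par p) : ℂ ≃ₜ ℂ := (exists_SL p hp).choose

lemma SL_apply (p : ℂ) (hp : Par p) (z : ℂ) : SL p hp z = z + ((-kL p z : ℝ) : ℂ) * I :=
  (exists_SL p hp).choose_spec z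

lemma SL_of_not_mem (p : ℂ) (hp : Par p) {z : ℂ} (h : z ∉ Rh) : SL p hp z = z := by
  rw [SL_apply, kL_eq_zero p hp h]; simp

lemma SL_of_re (p : ℂ) (hp : Par p) {z : ℂ} (h : 1 / 2 ≤ z.re) : SL p hp z = z := by
  rw [SL_apply, kL_eq_zero_of_re p hp h]; simp

lemma kL_left (p : ℂ) (hp : Par p) {x : ℝ} (h0 : 0 ≤ x) (h1 : x ≤ p.re) :
    kL p (x : ℂ) = -(x / p.re * p.im) := by
  have hP := hp.re_pos
  have hP2 := hp.re_lt
  have hs := s_pos
  obtain ⟨p1, b1⟩ := cA_bd hp
  obtain ⟨p2, b2⟩ := cB_bd hp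
  have e1 : cA p * n1 (x : ℂ) = -(x / p.re * p.im) := by
    unfold cA n1; simp; field_simp
  have e2 : cA p * n2 (x : ℂ) = -(x / p.re * p.im) := by
    unfold cA n2; simp; field_simp
  have e3 : -(x / p.re * p.im) ≤ cB p * (1 / 2 - (x : ℂ).re) := by
    rw [ofReal_re]
    have h3 : x / p.re ≤ 1 := by rw [div_le_one hP]; exact h1
    have h4 : -(x / p.re * p.im) ≤ -p.im := by
      have := hp.im_neg
      nlinarith
    have h5 : -p.im = cB p * (1 / 2 - p.re) := by
      unfold cB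
      rw [div_mul_cancel₀]
      linarith
    have h6 : cB p * (1 / 2 - p.re) ≤ cB p * (1 / 2 - x) := by nlinarith
    linarith
  have e4 : 0 ≤ -(x / p.re * p.im) := by
    have := hp.im_neg
    have h5 : 0 ≤ x / p.re := by positivity
    nlinarith
  unfold kL
  rw [e1, e2, min_self, min_self, min_eq_left e3, max_eq_right e4]

lemma kL_right (p : ℂ) (hp : Par p) {x : ℝ} (h0 : p.re ≤ x) (h1 : x ≤ 1 / 2) :
    kL p (x : ℂ) = -p.im * (1 / 2 - x) / (1 / 2 - p.re) := by
  have hP := hp.re_pos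
  have hP2 := hp.re_lt
  have hs := s_pos
  have hP3 : 0 < 1 / 2 - p.re := by linarith
  obtain ⟨p1, b1⟩ := cA_bd hp
  obtain ⟨p2, b2⟩ := cB_bd hp
  have e3 : cB p * (1 / 2 - (x : ℂ).re) = -p.im * (1 / 2 - x) / (1 / 2 - p.re) := by
    rw [ofReal_re]; unfold cB; field_simp
  have h6 : -p.im * (1 / 2 - x) / (1 / 2 - p.re) ≤ -p.im := by
    rw [div_le_iff₀ hP3]
    have := hp.im_neg
    nlinarith
  have h7 : -p.im ≤ cA p * (s * x) := by
    have : -p.im = cA p * (s * p.re) := by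
      unfold cA
      rw [div_mul_cancel₀]
      positivity
    rw [this]
    have : s * p.re ≤ s * x := by nlinarith
    nlinarith
  have e1 : cA p * n1 (x : ℂ) = cA p * (s * x) := by unfold n1; simp
  have e2 : cA p * n2 (x : ℂ) = cA p * (s * x) := by unfold n2; simp
  have e4 : 0 ≤ -p.im * (1 / 2 - x) / (1 / 2 - p.re) := by
    apply div_nonneg _ hP3.le
    have := hp.im_neg
    nlinarith
  unfold kL
  rw [e1, e2, e3, min_self, min_self, min_eq_right (h6.trans h7), max_eq_right e4]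

/-- The right shear. -/
noncomputable def SR (p : ℂ) (hp : Par p) : ℂ ≃ₜ ℂ := flip (SL p hp)

/-- The shear which maps the unit segment to the path `0, p, 1 - p, 1`. -/
noncomputable def S (p : ℂ) (hp : Par p) : ℂ ≃ₜ ℂ := (SL p hp).trans (SR p hp)

lemma S_apply (p : ℂ) (hp : Par p) (z : ℂ) : S p hp z = 1 - SL p hp (1 - SL p hp z) := rfl

lemma S_out (p : ℂ) (hp : Par p) {z : ℂ} (h : z ∉ Rh) : S p hp z = z := by
  rw [S_apply, SL_of_not_mem p hp h, SL_of_not_mem p hp, sub_sub_cancel]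
  intro hc
  apply h
  have := Rh_symm hc
  rwa [sub_sub_cancel] at this

lemma SL_re (p : ℂ) (hp : Par p) (z : ℂ) : (SL p hp z).re = z.re := by
  rw [SL_apply]; simp

lemma S_of_le (p : ℂ) (hp : Par p) {z : ℂ} (h : z.re ≤ 1 / 2) : S p hp z = SL p hp z := by
  rw [S_apply, SL_of_re p hp (z := 1 - SL p hp z), sub_sub_cancel]
  rw [sub_re, SL_re, one_re]; linarith

lemma S_flip (p : ℂ) (hp : Par p) {z : ℂ} (h : 1 / 2 ≤ z.re) :
    S p hp z = 1 - S p hp (1 - z) := by
  rw [S_of_le p hp (z := 1 - z) (by rw [sub_re, one_re]; linarith), S_apply,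
    SL_of_re p hp h]

/-- first part of the path -/
lemma S_first (p : ℂ) (hp : Par p) {t : ℝ} (h0 : 0 ≤ t) (h1 : t ≤ 1) :
    S p hp ((t * p.re : ℝ) : ℂ) = (t : ℂ) * p := by
  have hP := hp.re_pos
  have hP2 := hp.re_lt
  have e1 : t * p.re ≤ p.re := by nlinarith
  have e2 : 0 ≤ t * p.re := by positivity
  rw [S_of_le p hp (by rw [ofReal_re]; linarith), SL_apply, kL_left p hp e2 e1]
  apply Complex.ext
  · simp [mul_re]
  · rw [add_im, mul_im, mul_im, ofReal_im, ofReal_re, ofReal_im, I_re, I_im, ofReal_re, ofReal_im,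
      neg_neg]
    field_simp
    ring

/-- middle part of the path -/
lemma S_middle (p : ℂ) (hp : Par p) {t : ℝ} (h0 : 0 ≤ t) (h1 : t ≤ 1) :
    S p hp ((p.re + t * (1 - 2 * p.re) : ℝ) : ℂ) = p + (1 - 2 * p) * (t : ℂ) := by
  have hP := hp.re_pos
  have hP2 := hp.re_lt
  have hP3 : 0 < 1 / 2 - p.re := by linarith
  have key : ∀ t : ℝ, 0 ≤ t → t ≤ 1 / 2 →
      S p hp ((p.re + t * (1 - 2 * p.re) : ℝ) : ℂ) = p + (1 - 2 * p) * (t : ℂ) := by
    intro t h0 h1
    have e1 : p.re ≤ p.re + t * (1 - 2 * p.re) := by nlinarith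
    have e2 : p.re + t * (1 - 2 * p.re) ≤ 1 / 2 := by nlinarith
    rw [S_of_le p hp (by rw [ofReal_re]; linarith), SL_apply, kL_right p hp e1 e2]
    apply Complex.ext
    · simp only [add_re, mul_im, ofReal_re, ofReal_im, I_re, I_im, sub_im, sub_re, one_im, one_re,
        re_ofNat, im_ofNat, mul_re]
      ring
    · simp only [add_im, mul_im, ofReal_re, ofReal_im, I_re, I_im, sub_im, sub_re, one_im, one_re,
        re_ofNat, im_ofNat, mul_re]
      have e3 : 1 / 2 - (p.re + t * (1 - 2 * p.re)) = (1 / 2 - p.re) * (1 - 2 * t) := by ring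
      rw [e3]
      have e4 : -p.im * ((1 / 2 - p.re) * (1 - 2 * t)) / (1 / 2 - p.re) = -p.im * (1 - 2 * t) := by
        rw [div_eq_iff hP3.ne']; ring
      rw [e4]; ring
  rcases le_total t (1 / 2) with h | h
  · exact key t h0 h
  · have e1 : 1 / 2 ≤ p.re + t * (1 - 2 * p.re) := by nlinarith
    rw [S_flip p hp (by rw [ofReal_re]; exact e1)]
    have e2 : (1 : ℂ) - ((p.re + t * (1 - 2 * p.re) : ℝ) : ℂ)
        = ((p.re + (1 - t) * (1 - 2 * p.re) : ℝ) : ℂ) := by push_cast; ring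
    rw [e2, key (1 - t) (by linarith) (by linarith)]
    push_cast; ring

/-- last part of the path -/
lemma S_last (p : ℂ) (hp : Par p) {t : ℝ} (h0 : 0 ≤ t) (h1 : t ≤ 1) :
    S p hp ((1 - t * p.re : ℝ) : ℂ) = 1 - (t : ℂ) * p := by
  have hP := hp.re_pos
  have hP2 := hp.re_lt
  have e1 : t * p.re ≤ p.re := by nlinarith
  rw [S_flip p hp (by rw [ofReal_re]; linarith)]
  have e2 : (1 : ℂ) - ((1 - t * p.re : ℝ) : ℂ) = ((t * p.re : ℝ) : ℂ) := by push_cast; ring
  rw [e2, S_first p hp h0 h1]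

end Pool.Agent.H60.GrunF
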