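import Pool.Agent.H60.GrunF.Step

set_option autoImplicit false

/-! The recursion step, second part: the new arc. -/

namespace Pool.Agent.H60.GrunF

open Complex Pool.Agent.H60.Grun

/-! ### the two placements -/

/-- complex conjugation -/
noncomputable def cj : ℂ ≃ₜ ℂ where
  toFun z := (starRingEnd ℂ) z
  invFun z := (starRingEnd ℂ) z
  left_inv z := conj_conj z
  right_inv z := conj_conj z
  continuous_toFun := Complex.continuous_conj
  continuous_invFun := Complex.continuous_conj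

/-- `z ↦ p * conj z` -/
noncomputable def f1 (p : ℂ) (hp : Par p) : ℂ ≃ₜ ℂ := cj.trans (Homeomorph.mulLeft₀ p hp.ne)

/-- `z ↦ p + (1 - 2 p) * conj z` -/
noncomputable def f2 (p : ℂ) (hp : Par p) : ℂ ≃ₜ ℂ :=
  cj.trans ((Homeomorph.mulLeft₀ (1 - 2 * p) hp.ne').trans (Homeomorph.addLeft p))

lemma f1_apply (p : ℂ) (hp : Par p) (z : ℂ) : f1 p hp z = p * (starRingEnd ℂ) z := rfl

lemma f2_apply (p : ℂ) (hp : Par p) (z : ℂ) : f2 p hp z = p + (1 - 2 * p) * (starRingEnd ℂ) z :=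
  rfl

lemma f1_re (p : ℂ) (hp : Par p) (z : ℂ) : (f1 p hp z).re = p.re * z.re + p.im * z.im := by
  rw [f1_apply, mul_re, conj_re, conj_im]; ring

lemma f1_im (p : ℂ) (hp : Par p) (z : ℂ) : (f1 p hp z).im = p.im * z.re - p.re * z.im := by
  rw [f1_apply, mul_im, conj_re, conj_im]; ring

lemma f2_re (p : ℂ) (hp : Par p) (z : ℂ) :
    (f2 p hp z).re = p.re + (1 - 2 * p.re) * z.re - 2 * p.im * z.im := by
  rw [f2_apply]
  simp only [add_re, mul_re, sub_re, sub_im, one_re, one_im, mul_im, re_ofNat, im_ofNat, conj_re,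
    conj_im]
  ring

lemma f2_im (p : ℂ) (hp : Par p) (z : ℂ) :
    (f2 p hp z).im = p.im - 2 * p.im * z.re - (1 - 2 * p.re) * z.im := by
  rw [f2_apply]
  simp only [add_im, mul_re, sub_re, sub_im, one_re, one_im, mul_im, re_ofNat, im_ofNat, conj_re,
    conj_im]
  ring

lemma n34 {z : ℂ} (h1 : 0 < n1 z) (h2 : 0 < n2 z) (h : z.re < 1 / 2) : z ∈ Rh := by
  have hs := s_pos
  refine ⟨h1, h2, ?_, ?_⟩
  · unfold n1 at h1; unfold n3; nlinarith
  · unfold n2 at h2; unfold n4; nlinarith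

lemma f1_R (p : ℂ) (hp : Par p) {z : ℂ} (h : z ∈ R) :
    f1 p hp z ∈ Rh ∧ (f1 p hp z).re < p.re := by
  have hx0 := re_pos_of_R h
  have hx1 := re_lt_of_R h
  obtain ⟨h1, h2, -, h4, -⟩ := h
  unfold la at h1; unfold lb at h2; unfold ld at h4
  have hs := s_pos
  have hss := s_sq
  have hP := hp.re_pos
  have hP2 := hp.re_lt
  have hsl := hp.slope
  have hQ : 0 < -p.im := neg_pos.mpr hp.im_neg
  have e := f1_re p hp z
  have e' := f1_im p hp z
  have hlt : (f1 p hp z).re < p.re := by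
    rw [e]
    have a1 : -z.im < s * (1 - z.re) := by linarith
    have a2 : -p.im * -z.im < -p.im * (s * (1 - z.re)) := mul_lt_mul_of_pos_left a1 hQ
    have a3 : -(s * p.im) * (1 - z.re) < p.re * (1 - z.re) :=
      mul_lt_mul_of_pos_right hsl (by linarith)
    nlinarith
  have hc1 : 0 < s * p.re + 3 * p.im := by nlinarith
  have hc2 : 0 < p.re + s * p.im := by linarith
  refine ⟨n34 ?_ ?_ (by linarith), hlt⟩
  · unfold n1; rw [e, e']
    have a1 : 0 < s * z.re / 3 - z.im := by linarith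
    have a2 : 0 < (p.re - s * p.im) := by
      have := mul_pos hs hQ
      linarith
    have a3 : s * (p.re * z.re + p.im * z.im) + (p.im * z.re - p.re * z.im)
        = (p.re - s * p.im) * (s * z.re / 3 - z.im)
          + 2 / 3 * (s * p.re + 3 * p.im) * z.re + (s * s - 3) / 3 * p.im * z.re := by ring
    rw [a3, hss]
    have := mul_pos a2 a1
    have := mul_pos hc1 hx0
    linarith
  · unfold n2; rw [e, e']
    have a1 : 0 < s * z.re + z.im := by linarith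
    have a3 : s * (p.re * z.re + p.im * z.im) - (p.im * z.re - p.re * z.im)
        = (p.re + s * p.im) * (s * z.re + z.im) + 4 * (-p.im) * z.re
          - (s * s - 3) * p.im * z.re := by ring
    rw [a3, hss]
    have := mul_pos hc2 a1
    have := mul_pos hQ hx0
    linarith

lemma f2_symm (p : ℂ) (hp : Par p) (z : ℂ) : 1 - f2 p hp z = f2 p hp (1 - z) := by
  rw [f2_apply, f2_apply, map_sub, map_one]; ring

lemma f2_Rh_aux (p : ℂ) (hp : Par p) {z : ℂ} (h : z ∈ Rh) :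
    0 < n1 (f2 p hp z) ∧ 0 < n2 (f2 p hp z) ∧ p.re < (f2 p hp z).re := by
  rw [mem_Rh_iff] at h
  obtain ⟨x0, x1, y0, y1⟩ := h
  have hs := s_pos
  have hss := s_sq
  have hP := hp.re_pos
  have hP2 := hp.re_lt
  have hsl := hp.slope
  have hin := hp.ineq
  have hQ : 0 < -p.im := neg_pos.mpr hp.im_neg
  have e := f2_re p hp z
  have e' := f2_im p hp z
  rw [re_eq z, im_eq z] at e e'
  have hc1 : 0 < s * p.re + 3 * p.im := by nlinarith
  have hc3 : -(6 * p.im) ≤ s * (1 - 2 * p.re) := by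
    have := mul_le_mul_of_nonneg_left hin hs.le
    have e3 : s * -(2 * s * p.im) = -(6 * p.im) - 2 * (s * s - 3) * p.im := by ring
    rw [e3, hss] at this
    linarith
  refine ⟨?_, ?_, ?_⟩
  · unfold n1; rw [e, e']
    have a3 : s * (p.re + (1 - 2 * p.re) * ((X z + Y z) / 2)
          - 2 * p.im * (s * (Y z - X z) / 2))
        + (p.im - 2 * p.im * ((X z + Y z) / 2) - (1 - 2 * p.re) * (s * (Y z - X z) / 2))
        = (s * p.re + p.im) + (s * (1 - 2 * p.re) + 2 * p.im) * X z + 4 * (-p.im) * Y z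
          - (s * s - 3) * p.im * (Y z - X z) := by ring
    rw [a3, hss]
    have b1 : 0 ≤ (s * (1 - 2 * p.re) + 2 * p.im) * X z := mul_nonneg (by linarith) x0.le
    have b2 := mul_pos hQ y0
    linarith
  · unfold n2; rw [e, e']
    have a3 : s * (p.re + (1 - 2 * p.re) * ((X z + Y z) / 2)
          - 2 * p.im * (s * (Y z - X z) / 2))
        - (p.im - 2 * p.im * ((X z + Y z) / 2) - (1 - 2 * p.re) * (s * (Y z - X z) / 2))
        = (s * p.re + 3 * p.im) + 4 * (-p.im) * (1 - X z) + (s * (1 - 2 * p.re) - 2 * p.im) * Y z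
          - (s * s - 3) * p.im * (Y z - X z) := by ring
    rw [a3, hss]
    have b1 : 0 ≤ (s * (1 - 2 * p.re) - 2 * p.im) * Y z := mul_nonneg (by linarith) y0.le
    have b2 := mul_pos hQ (by linarith : 0 < 1 - X z)
    linarith
  · rw [e]
    have a3 : p.re + (1 - 2 * p.re) * ((X z + Y z) / 2) - 2 * p.im * (s * (Y z - X z) / 2)
        = p.re + ((1 - 2 * p.re) + 2 * s * p.im) / 2 * X z
          + ((1 - 2 * p.re) + 2 * (-(s * p.im))) / 2 * Y z := by ring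
    rw [a3]
    have b1 : 0 ≤ ((1 - 2 * p.re) + 2 * s * p.im) / 2 * X z := mul_nonneg (by linarith) x0.le
    have b3 : 0 < -(s * p.im) := by nlinarith
    have b2 : 0 < ((1 - 2 * p.re) + 2 * (-(s * p.im))) / 2 * Y z := mul_pos (by linarith) y0
    linarith

lemma f2_Rh (p : ℂ) (hp : Par p) {z : ℂ} (h : z ∈ Rh) :
    f2 p hp z ∈ Rh ∧ p.re < (f2 p hp z).re ∧ (f2 p hp z).re < 1 - p.re := by
  obtain ⟨h1, h2, h3⟩ := f2_Rh_aux p hp h
  obtain ⟨k1, k2, k3⟩ := f2_Rh_aux p hp (Rh_symm h)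
  rw [← f2_symm] at k1 k2 k3
  refine ⟨⟨h1, h2, ?_, ?_⟩, h3, ?_⟩
  · unfold n2 at k2; unfold n3
    rw [sub_re, sub_im, one_re, one_im] at k2; linarith
  · unfold n1 at k1; unfold n4
    rw [sub_re, sub_im, one_re, one_im] at k1; linarith
  · rw [sub_re, one_re] at k3; linarith

/-! ### the three local homeomorphisms -/

noncomputable def A1 (p : ℂ) (hp : Par p) : ℂ ≃ₜ ℂ := (f1 p hp).symm.trans (H.trans (f1 p hp))

lemma A1_f1 (p : ℂ) (hp : Par p) (z : ℂ) : A1 p hp (f1 p hp z) = f1 p hp (H z) := by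
  show f1 p hp (H ((f1 p hp).symm (f1 p hp z))) = _
  rw [Homeomorph.symm_apply_apply]

lemma A1_of_re (p : ℂ) (hp : Par p) {z : ℂ} (h : p.re ≤ z.re) : A1 p hp z = z := by
  show f1 p hp (H ((f1 p hp).symm z)) = z
  rw [H_of_not_mem, Homeomorph.apply_symm_apply]
  intro hc
  have := (f1_R p hp hc).2
  rw [Homeomorph.apply_symm_apply] at this
  linarith

lemma A1_out (p : ℂ) (hp : Par p) {z : ℂ} (h : z ∉ Rh) : A1 p hp z = z := by
  show f1 p hp (H ((f1 p hp).symm z)) = z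
  rw [H_of_not_mem, Homeomorph.apply_symm_apply]
  intro hc
  have := (f1_R p hp hc).1
  rw [Homeomorph.apply_symm_apply] at this
  exact h this

noncomputable def A2 (a : Arc) (p : ℂ) (hp : Par p) : ℂ ≃ₜ ℂ :=
  (f2 p hp).symm.trans (a.J.trans (f2 p hp))

lemma A2_f2 (a : Arc) (p : ℂ) (hp : Par p) (z : ℂ) : A2 a p hp (f2 p hp z) = f2 p hp (a.J z) := by
  show f2 p hp (a.J ((f2 p hp).symm (f2 p hp z))) = _
  rw [Homeomorph.symm_apply_apply]

lemma A2_of_re (a : Arc) (p : ℂ) (hp : Par p) {z : ℂ} (h : z.re ≤ p.re ∨ 1 - p.re ≤ z.re) :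
    A2 a p hp z = z := by
  show f2 p hp (a.J ((f2 p hp).symm z)) = z
  rw [a.out, Homeomorph.apply_symm_apply]
  intro hc
  have := (f2_Rh p hp hc).2
  rw [Homeomorph.apply_symm_apply] at this
  rcases h with h | h <;> linarith [this.1, this.2]

lemma A2_out (a : Arc) (p : ℂ) (hp : Par p) {z : ℂ} (h : z ∉ Rh) : A2 a p hp z = z := by
  show f2 p hp (a.J ((f2 p hp).symm z)) = z
  rw [a.out, Homeomorph.apply_symm_apply]
  intro hc
  have := (f2_Rh p hp hc).1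
  rw [Homeomorph.apply_symm_apply] at this
  exact h this

noncomputable def A3 (p : ℂ) (hp : Par p) : ℂ ≃ₜ ℂ := flip (A1 p hp)

lemma A3_f1 (p : ℂ) (hp : Par p) (z : ℂ) : A3 p hp (1 - f1 p hp z) = 1 - f1 p hp (H z) := by
  unfold A3
  rw [flip_apply, sub_sub_cancel, A1_f1]

lemma A3_of_re (p : ℂ) (hp : Par p) {z : ℂ} (h : z.re ≤ 1 - p.re) : A3 p hp z = z := by
  unfold A3
  rw [flip_apply, A1_of_re p hp, sub_sub_cancel]
  rw [sub_re, one_re]; linarith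

lemma A3_out (p : ℂ) (hp : Par p) {z : ℂ} (h : z ∉ Rh) : A3 p hp z = z := by
  unfold A3
  rw [flip_apply, A1_out p hp, sub_sub_cancel]
  intro hc
  apply h
  have := Rh_symm hc
  rwa [sub_sub_cancel] at this

/-! ### closures -/

lemma f1_Rc_re (p : ℂ) (hp : Par p) {z : ℂ} (h : z ∈ Rc) : (f1 p hp z).re ≤ p.re := by
  have hcl : IsClosed {z : ℂ | (f1 p hp z).re ≤ p.re} :=
    isClosed_le (continuous_re.comp (f1 p hp).continuous) continuous_const
  exact closure_minimal (fun w hw => (f1_R p hp hw).2.le) hcl h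

lemma f2_closure_re (p : ℂ) (hp : Par p) {z : ℂ} (h : z ∈ closure Rh) :
    p.re ≤ (f2 p hp z).re ∧ (f2 p hp z).re ≤ 1 - p.re := by
  have hcl : IsClosed {z : ℂ | p.re ≤ (f2 p hp z).re ∧ (f2 p hp z).re ≤ 1 - p.re} :=
    (isClosed_le continuous_const (continuous_re.comp (f2 p hp).continuous)).inter
      (isClosed_le (continuous_re.comp (f2 p hp).continuous) continuous_const)
  have hsub : Rh ⊆ {z : ℂ | p.re ≤ (f2 p hp z).re ∧ (f2 p hp z).re ≤ 1 - p.re} :=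
    fun w hw => ⟨(f2_Rh p hp hw).2.1.le, (f2_Rh p hp hw).2.2.le⟩
  exact closure_minimal hsub hcl h

lemma Arc.J_mem_Rh (a : Arc) {z : ℂ} (h : z ∈ Rh) : a.J z ∈ Rh := by
  by_contra hc
  have h1 := a.out _ hc
  have h2 := a.J.injective h1
  rw [h2] at hc
  exact hc h

lemma Arc.J_mem_closure (a : Arc) {z : ℂ} (h : z ∈ closure Rh) : a.J z ∈ closure Rh :=
  map_mem_closure a.J.continuous h (fun _ hw => a.J_mem_Rh hw)

lemma Arc.V_subset (a : Arc) : a.V ⊆ closure Rh := by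
  rintro _ ⟨x, hx, rfl⟩
  exact a.J_mem_closure (seg_subset_closure_Rh hx)

/-! ### the new arc -/

/-- The new homeomorphism. -/
noncomputable def Jn (a : Arc) (p : ℂ) (hp : Par p) : ℂ ≃ₜ ℂ :=
  (S p hp).trans ((A1 p hp).trans ((A2 a p hp).trans (A3 p hp)))

lemma Jn_apply (a : Arc) (p : ℂ) (hp : Par p) (z : ℂ) :
    Jn a p hp z = A3 p hp (A2 a p hp (A1 p hp (S p hp z))) := rfl

lemma Jn_out (a : Arc) (p : ℂ) (hp : Par p) {z : ℂ} (h : z ∉ Rh) : Jn a p hp z = z := by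
  rw [Jn_apply, S_out p hp h, A1_out p hp h, A2_out a p hp h, A3_out p hp h]

lemma Jn_first (a : Arc) (p : ℂ) (hp : Par p) {t : ℝ} (h0 : 0 ≤ t) (h1 : t ≤ 1) :
    Jn a p hp ((t * p.re : ℝ) : ℂ) = p * (starRingEnd ℂ) (H t) := by
  have hP := hp.re_pos
  have hP2 := hp.re_lt
  have hm : (t : ℂ) ∈ seg := ⟨t, ⟨h0, h1⟩, rfl⟩
  have e1 : (t : ℂ) * p = f1 p hp t := by rw [f1_apply, conj_ofReal]; ring
  have h3 := f1_Rc_re p hp (H_mem_Rc (seg_subset_Rc hm))
  rw [Jn_apply, S_first p hp h0 h1, e1, A1_f1, A2_of_re a p hp (Or.inl h3),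
    A3_of_re p hp (by linarith), f1_apply]

lemma Jn_middle (a : Arc) (p : ℂ) (hp : Par p) {t : ℝ} (h0 : 0 ≤ t) (h1 : t ≤ 1) :
    Jn a p hp ((p.re + t * (1 - 2 * p.re) : ℝ) : ℂ) = p + (1 - 2 * p) * (starRingEnd ℂ) (a.J t)
    := by
  have hm : (t : ℂ) ∈ seg := ⟨t, ⟨h0, h1⟩, rfl⟩
  have e1 : p + (1 - 2 * p) * (t : ℂ) = f2 p hp t := by rw [f2_apply, conj_ofReal]
  have h2 := f2_closure_re p hp (seg_subset_closure_Rh hm)
  have h3 := f2_closure_re p hp (a.J_mem_closure (seg_subset_closure_Rh hm))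
  rw [Jn_apply, S_middle p hp h0 h1, e1, A1_of_re p hp h2.1, A2_f2, A3_of_re p hp h3.2, f2_apply]

lemma Jn_last (a : Arc) (p : ℂ) (hp : Par p) {t : ℝ} (h0 : 0 ≤ t) (h1 : t ≤ 1) :
    Jn a p hp ((1 - t * p.re : ℝ) : ℂ) = 1 - p * (starRingEnd ℂ) (H t) := by
  have hP := hp.re_pos
  have hP2 := hp.re_lt
  have hm : (t : ℂ) ∈ seg := ⟨t, ⟨h0, h1⟩, rfl⟩
  have e1 : (t : ℂ) * p = f1 p hp t := by rw [f1_apply, conj_ofReal]; ring
  have h3 := f1_Rc_re p hp (seg_subset_Rc hm)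
  have h4 : 1 - p.re ≤ (1 - f1 p hp t).re := by rw [sub_re, one_re]; linarith
  rw [Jn_apply, S_last p hp h0 h1, e1, A1_of_re p hp (by linarith), A2_of_re a p hp (Or.inr h4),
    A3_f1, f1_apply]

lemma Jn_image (a : Arc) (p : ℂ) (hp : Par p) (z : ℂ) : z ∈ Jn a p hp '' seg ↔
    (∃ x ∈ W, z = p * (starRingEnd ℂ) x) ∨
    (∃ v ∈ a.V, z = p + (1 - 2 * p) * (starRingEnd ℂ) v) ∨
    (∃ x ∈ W, z = 1 - p * (starRingEnd ℂ) x) := by
  have hP := hp.re_pos
  have hP2 := hp.re_lt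
  have hP3 : 0 < 1 - 2 * p.re := by linarith
  constructor
  · rintro ⟨_, ⟨x, ⟨h0, h1⟩, rfl⟩, rfl⟩
    simp only
    rcases le_total x p.re with hx | hx
    · left
      have g0 : 0 ≤ x / p.re := by positivity
      have g1 : x / p.re ≤ 1 := by rw [div_le_one hP]; exact hx
      have e : x = x / p.re * p.re := by rw [div_mul_cancel₀ _ hP.ne']
      refine ⟨_, ⟨((x / p.re : ℝ) : ℂ), ⟨_, ⟨g0, g1⟩, rfl⟩, rfl⟩, ?_⟩
      rw [← Jn_first a p hp g0 g1, ← e]
    · rcases le_total x (1 - p.re) with hx' | hx'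
      · right; left
        have g0 : 0 ≤ (x - p.re) / (1 - 2 * p.re) := div_nonneg (by linarith) hP3.le
        have g1 : (x - p.re) / (1 - 2 * p.re) ≤ 1 := by rw [div_le_one hP3]; linarith
        have e : x = p.re + (x - p.re) / (1 - 2 * p.re) * (1 - 2 * p.re) := by
          rw [div_mul_cancel₀ _ hP3.ne']; ring
        refine ⟨_, ⟨(((x - p.re) / (1 - 2 * p.re) : ℝ) : ℂ), ⟨_, ⟨g0, g1⟩, rfl⟩, rfl⟩, ?_⟩
        rw [← Jn_middle a p hp g0 g1, ← e]
      · right; right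
        have g0 : 0 ≤ (1 - x) / p.re := div_nonneg (by linarith) hP.le
        have g1 : (1 - x) / p.re ≤ 1 := by rw [div_le_one hP]; linarith
        have e : x = 1 - (1 - x) / p.re * p.re := by rw [div_mul_cancel₀ _ hP.ne']; ring
        refine ⟨_, ⟨(((1 - x) / p.re : ℝ) : ℂ), ⟨_, ⟨g0, g1⟩, rfl⟩, rfl⟩, ?_⟩
        rw [← Jn_last a p hp g0 g1, ← e]
  · rintro (⟨_, ⟨_, ⟨t, ⟨h0, h1⟩, rfl⟩, rfl⟩, rfl⟩ | ⟨_, ⟨_, ⟨t, ⟨h0, h1⟩, rfl⟩, rfl⟩, rfl⟩ |
      ⟨_, ⟨_, ⟨t, ⟨h0, h1⟩, rfl⟩, rfl⟩, rfl⟩)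
    · refine ⟨((t * p.re : ℝ) : ℂ), ⟨_, ⟨by positivity, by nlinarith⟩, rfl⟩, ?_⟩
      exact Jn_first a p hp h0 h1
    · refine ⟨((p.re + t * (1 - 2 * p.re) : ℝ) : ℂ), ⟨_, ⟨by positivity, by nlinarith⟩, rfl⟩, ?_⟩
      exact Jn_middle a p hp h0 h1
    · refine ⟨((1 - t * p.re : ℝ) : ℂ), ⟨_, ⟨by nlinarith, by nlinarith⟩, rfl⟩, ?_⟩
      exact Jn_last a p hp h0 h1

/-- The new arc. -/
noncomputable def nxt (a : Arc) (p : ℂ) (hp : Par p) : Arc where
  J := Jn a p hp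
  out := fun _ h => Jn_out a p hp h
  sym := by
    intro z hz
    rw [Jn_image] at *
    rcases hz with ⟨x, hx, h⟩ | ⟨v, hv, h⟩ | ⟨x, hx, h⟩
    · right; right
      exact ⟨x, hx, by rw [h]⟩
    · right; left
      refine ⟨1 - v, a.V_symm hv, ?_⟩
      rw [h, map_sub, map_one]; ring
    · left
      exact ⟨x, hx, by rw [h, sub_sub_cancel]⟩

lemma mem_nxt (a : Arc) (p : ℂ) (hp : Par p) (z : ℂ) : z ∈ (nxt a p hp).V ↔
    (∃ x ∈ W, z = p * (starRingEnd ℂ) x) ∨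
    (∃ v ∈ a.V, z = p + (1 - 2 * p) * (starRingEnd ℂ) v) ∨
    (∃ x ∈ W, z = 1 - p * (starRingEnd ℂ) x) := Jn_image a p hp z

end Pool.Agent.H60.GrunF
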